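import Pool.Agent.H77.Df.Count

/-!
# Transfer to multiplicity matrices

`colour_local`: let `A` be a minimal subset of the edge set that is not colourable (if any); pick `e ∈ A` (the empty set is
colourable, `k ≥ 1` because of `hdeg`; if `V` is empty there is no edge); `A.erase e` is colourable; `fan_count` for the
degrees in `A` (smaller than the degrees in the whole graph, so the hypothesis `hloc` is violated; note that
`k d - deg A z ≥ k d - deg z` and the number of `A`-edges between `y` and `F` is at most the total number).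
`matrix`: edge type `E = Σ i j, Fin (if i < j then m i j else 0)` (or any other), `s`, `t` the two indices; degree of `v` is
`∑ u, m v u`, the number of edges between `y` and `z` is `m y z`; from a colouring `c` of `E` define
`c i j a` = number of edges between `i` and `j` of colour `a`.
-/

set_option autoImplicit false

open Finset
open scoped Classical

namespace Pool.Agent.H77.Df

theorem fin_deg_mono {V E : Type} [Fintype E] (G : MG V E) (A : Finset E) (v : V) :
    G.deg A v ≤ G.deg Finset.univ v :=
  Finset.card_le_card (Finset.filter_subset_filter _ (Finset.subset_univ A))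

theorem fin_min {V E : Type} (G : MG V E) (d k : ℕ) (n : ℕ) :
    ∀ A : Finset E, A.card = n → ¬ G.Colourable d k A →
      ∃ B : Finset E, ¬ G.Colourable d k B ∧ ∀ e ∈ B, G.Colourable d k (B.erase e) := by
  induction n using Nat.strong_induction_on with
  | _ n ih =>
    intro A hA hn
    by_cases h : ∀ e ∈ A, G.Colourable d k (A.erase e)
    · exact ⟨A, hn, h⟩
    · push Not at h
      obtain ⟨e, he, hne⟩ := h
      exact ih (A.erase e).card (by rw [← hA]; exact Finset.card_erase_lt_of_mem he) _ rfl hne

theorem fin_empty {V E : Type} [Fintype E] (G : MG V E) (d k : ℕ)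
    (hdeg : ∀ v, G.deg Finset.univ v + 1 ≤ k * d) : G.Colourable d k ∅ := by
  obtain ⟨c⟩ : Nonempty (E → Fin k) := by
    rcases isEmpty_or_nonempty E with hE | hE
    · exact ⟨fun e => isEmptyElim e⟩
    · obtain ⟨e⟩ := hE
      have h1 := hdeg (G.s e)
      have h2 : 0 < k := by
        rcases Nat.eq_zero_or_pos k with h3 | h3
        · rw [h3, zero_mul] at h1
          omega
        · exact h3
      exact ⟨fun _ => ⟨0, h2⟩⟩
  refine ⟨c, fun a v => ?_⟩
  unfold MG.dg MG.deg
  simp

theorem colour_local {V E : Type} [Fintype V] [Fintype E] (G : MG V E) (d k : ℕ)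
    (hdeg : ∀ v, G.deg Finset.univ v + 1 ≤ k * d)
    (hloc : ∀ (y : V) (F : Finset V), F.Nonempty → y ∉ F → (∀ z ∈ F, ∃ g, G.joins g y z) →
      (Finset.univ.filter (fun g : E => ∃ z ∈ F, G.joins g y z)).card ≤ d + d * ∑ z ∈ F, (k * d - G.deg Finset.univ z) ∨
      k < ∑ z ∈ insert y F, (k * d - G.deg Finset.univ z) + 2) :
    G.Colourable d k Finset.univ := by
  by_contra hcon
  obtain ⟨A, hA, hmin⟩ := fin_min G d k _ Finset.univ rfl hcon
  have hne : A.Nonempty := by
    rw [Finset.nonempty_iff_ne_empty]
    rintro rfl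
    exact hA (fin_empty G d k hdeg)
  obtain ⟨e, he⟩ := hne
  obtain ⟨c, hc⟩ := hmin e he
  have hst : G.St d A e c (G.s e) (G.t e) := ⟨hA, he, Or.inl ⟨rfl, rfl⟩, hc⟩
  obtain ⟨F, hxF, hyF, hj, h1, h2⟩ := fan_count hst
    (fun v => (Nat.add_le_add_right (fin_deg_mono G A v) 1).trans (hdeg v))
  have hsum : ∀ S : Finset V, ∑ z ∈ S, (k * d - G.deg Finset.univ z) ≤
      ∑ z ∈ S, (k * d - G.deg A z) := fun S =>
    Finset.sum_le_sum fun z _ => Nat.sub_le_sub_left (fin_deg_mono G A z) _
  rcases hloc (G.t e) F ⟨_, hxF⟩ hyF (fun z hz => by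
    obtain ⟨g, _, hg⟩ := hj z hz
    exact ⟨g, hg⟩) with h3 | h3
  · have h4 : (A.filter (fun g => ∃ z ∈ F, G.joins g (G.t e) z)).card ≤
        (Finset.univ.filter (fun g : E => ∃ z ∈ F, G.joins g (G.t e) z)).card :=
      Finset.card_le_card (Finset.filter_subset_filter _ (Finset.subset_univ A))
    have h5 := Nat.mul_le_mul_left d (hsum F)
    omega
  · have h5 := hsum (insert (G.t e) F)
    omega

theorem fin_joins_symm {V E : Type} (G : MG V E) (e : E) (u v : V) :
    G.joins e u v ↔ G.joins e v u := by
  unfold MG.joins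
  exact or_comm

/-- edges at `v` are counted by their other end -/
theorem fin_count {V E : Type} [Fintype V] (G : MG V E) (B : Finset E) (v : V) :
    (B.filter (fun e => G.inc e v)).card = ∑ u, (B.filter (fun e => G.joins e v u)).card := by
  rw [Finset.card_eq_sum_card_fiberwise (f := fun e => if G.s e = v then G.t e else G.s e)
    (t := Finset.univ) (fun _ _ => Finset.mem_coe.2 (Finset.mem_univ _))]
  apply Finset.sum_congr rfl
  intro u _
  congr 1
  ext e
  simp only [Finset.mem_filter]
  constructor
  · rintro ⟨⟨he, hi⟩, ho⟩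
    refine ⟨he, ?_⟩
    by_cases h : G.s e = v
    · rw [if_pos h] at ho
      exact Or.inl ⟨h, ho⟩
    · rw [if_neg h] at ho
      rcases hi with hi | hi
      · exact absurd hi h
      · exact Or.inr ⟨ho, hi⟩
  · rintro ⟨he, hj | hj⟩
    · exact ⟨⟨he, Or.inl hj.1⟩, by rw [if_pos hj.1]; exact hj.2⟩
    · have h : G.s e ≠ v := by
        intro h
        exact G.ne e (h.trans hj.2.symm)
      exact ⟨⟨he, Or.inr hj.2⟩, by rw [if_neg h]; exact hj.1⟩

/-- edge type of a multiplicity matrix -/
abbrev FinE (n : ℕ) (m : Fin n → Fin n → ℕ) : Type :=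
  Σ p : Fin n × Fin n, Fin (if p.1 < p.2 then m p.1 p.2 else 0)

/-- multigraph of a multiplicity matrix -/
def finG (n : ℕ) (m : Fin n → Fin n → ℕ) : MG (Fin n) (FinE n m) where
  s e := e.1.1
  t e := e.1.2
  ne := by
    rintro ⟨p, x⟩
    have h : p.1 < p.2 := by
      by_contra h
      rw [if_neg h] at x
      exact x.elim0
    exact ne_of_lt h

theorem fin_cell (n : ℕ) (m : Fin n → Fin n → ℕ) (q : Fin n × Fin n) :
    (Finset.univ.filter (fun e : FinE n m => e.1 = q)).card =
      if q.1 < q.2 then m q.1 q.2 else 0 := by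
  have h1 : Finset.univ.filter (fun e : FinE n m => e.1 = q) =
      (Finset.univ : Finset (Fin (if q.1 < q.2 then m q.1 q.2 else 0))).map
        ⟨fun x => (⟨q, x⟩ : FinE n m), fun x y h => by
          simpa using h⟩ := by
    ext e
    simp only [Finset.mem_filter, Finset.mem_univ, true_and, Finset.mem_map,
      Function.Embedding.coeFn_mk]
    constructor
    · intro h
      obtain ⟨p, x⟩ := e
      have h' : p = q := h
      subst h'
      exact ⟨x, rfl⟩
    · rintro ⟨x, rfl⟩
      rfl
  rw [h1, Finset.card_map, Finset.card_univ, Fintype.card_fin]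

theorem fin_joins (n : ℕ) (m : Fin n → Fin n → ℕ) (hs : ∀ i j, m i j = m j i)
    (h0 : ∀ i, m i i = 0) (i j : Fin n) :
    (Finset.univ.filter (fun e : FinE n m => (finG n m).joins e i j)).card = m i j := by
  rcases lt_trichotomy i j with h | h | h
  · have h1 : Finset.univ.filter (fun e : FinE n m => (finG n m).joins e i j) =
        Finset.univ.filter (fun e : FinE n m => e.1 = (i, j)) := by
      apply Finset.filter_congr
      intro e _
      constructor
      · rintro (⟨h2, h3⟩ | ⟨h2, h3⟩)
        · exact Prod.ext h2 h3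
        · exfalso
          obtain ⟨p, x⟩ := e
          have h4 : ¬ p.1 < p.2 := by
            have h2' : p.1 = j := h2
            have h3' : p.2 = i := h3
            rw [h2', h3']
            exact not_lt.2 h.le
          rw [if_neg h4] at x
          exact x.elim0
      · intro h2
        exact Or.inl ⟨congrArg Prod.fst h2, congrArg Prod.snd h2⟩
    rw [h1, fin_cell, if_pos h]
  · subst h
    rw [h0, Finset.card_eq_zero, Finset.filter_eq_empty_iff]
    intro e _ hj
    apply (finG n m).ne e
    rcases hj with ⟨h2, h3⟩ | ⟨h2, h3⟩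
    · exact h2.trans h3.symm
    · exact h2.trans h3.symm
  · have h1 : Finset.univ.filter (fun e : FinE n m => (finG n m).joins e i j) =
        Finset.univ.filter (fun e : FinE n m => e.1 = (j, i)) := by
      apply Finset.filter_congr
      intro e _
      constructor
      · rintro (⟨h2, h3⟩ | ⟨h2, h3⟩)
        · exfalso
          obtain ⟨p, x⟩ := e
          have h4 : ¬ p.1 < p.2 := by
            have h2' : p.1 = i := h2
            have h3' : p.2 = j := h3
            rw [h2', h3']
            exact not_lt.2 h.le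
          rw [if_neg h4] at x
          exact x.elim0
        · exact Prod.ext h2 h3
      · intro h2
        exact Or.inr ⟨congrArg Prod.fst h2, congrArg Prod.snd h2⟩
    rw [h1, fin_cell, if_pos h]
    exact hs j i

theorem fin_deg (n : ℕ) (m : Fin n → Fin n → ℕ) (hs : ∀ i j, m i j = m j i)
    (h0 : ∀ i, m i i = 0) (v : Fin n) : (finG n m).deg Finset.univ v = ∑ u, m v u := by
  unfold MG.deg
  rw [fin_count]
  exact Finset.sum_congr rfl fun u _ => fin_joins n m hs h0 v u

theorem fin_card_inst {α : Type} [Fintype α] (p : α → Prop) (i1 i2 : DecidablePred p) :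
    (@Finset.filter α p i1 Finset.univ).card = (@Finset.filter α p i2 Finset.univ).card := by
  rw [Subsingleton.elim i1 i2]

theorem fin_sum_inst {α : Type} (i1 i2 : DecidableEq α) (y : α) (F : Finset α) (f : α → ℕ) :
    ∑ z ∈ @Insert.insert α (Finset α) (@Finset.instInsert α i1) y F, f z =
      ∑ z ∈ @Insert.insert α (Finset α) (@Finset.instInsert α i2) y F, f z := by
  rw [Subsingleton.elim i1 i2]

/-- local theorem for multiplicity matrices -/
theorem matrix_local (d n : ℕ) (m : Fin n → Fin n → ℕ) (hs : ∀ i j, m i j = m j i) (h0 : ∀ i, m i i = 0) (k : ℕ)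
    (hdeg : ∀ v : Fin n, (∑ u, m v u) + 1 ≤ k * d)
    (hloc : ∀ (y : Fin n) (F : Finset (Fin n)), F.Nonempty → y ∉ F → (∀ z ∈ F, 0 < m y z) →
      (∑ z ∈ F, m y z ≤ d + d * ∑ z ∈ F, (k * d - ∑ u, m z u)) ∨ k < ∑ z ∈ insert y F, (k * d - ∑ u, m z u) + 2) :
    ∃ c : Fin n → Fin n → Fin k → ℕ,
      (∀ i j a, c i j a = c j i a) ∧ (∀ i j, ∑ a, c i j a = m i j) ∧ (∀ v a, ∑ u, c v u a ≤ d) := by
  have hdg := fin_deg n m hs h0
  obtain ⟨f, hf⟩ := colour_local (finG n m) d k (fun v => by rw [hdg v]; exact hdeg v) (by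
    intro y F hF hy hj
    have hpos : ∀ z ∈ F, 0 < m y z := by
      intro z hz
      obtain ⟨g, hg⟩ := hj z hz
      rw [← fin_joins n m hs h0 y z]
      exact Finset.card_pos.2 ⟨g, Finset.mem_filter.2 ⟨Finset.mem_univ g, hg⟩⟩
    have hcard : (Finset.univ.filter (fun g : FinE n m => ∃ z ∈ F, (finG n m).joins g y z)).card ≤
        ∑ z ∈ F, m y z := by
      have h1 : Finset.univ.filter (fun g : FinE n m => ∃ z ∈ F, (finG n m).joins g y z) ⊆
          F.biUnion (fun z => Finset.univ.filter (fun g : FinE n m => (finG n m).joins g y z)) := by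
        intro g hg
        obtain ⟨z, hz, hgz⟩ := (Finset.mem_filter.1 hg).2
        exact Finset.mem_biUnion.2 ⟨z, hz, Finset.mem_filter.2 ⟨Finset.mem_univ g, hgz⟩⟩
      refine (Finset.card_le_card h1).trans (Finset.card_biUnion_le.trans ?_)
      exact Finset.sum_le_sum fun z _ => (fin_joins n m hs h0 y z).le
    simp only [hdg]
    rcases hloc y F hF hy hpos with h | h
    · left
      have h2 := hcard.trans h
      exact le_trans (le_of_eq (fin_card_inst _ _ _)) h2
    · right
      exact lt_of_lt_of_eq h (congrArg (· + 2) (fin_sum_inst _ _ y F _)))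
  refine ⟨fun i j a => (Finset.univ.filter
    (fun e : FinE n m => (finG n m).joins e i j ∧ f e = a)).card, ?_, ?_, ?_⟩
  · intro i j a
    show (Finset.univ.filter (fun e : FinE n m => (finG n m).joins e i j ∧ f e = a)).card =
      (Finset.univ.filter (fun e : FinE n m => (finG n m).joins e j i ∧ f e = a)).card
    congr 1
    apply Finset.filter_congr
    intro e _
    rw [fin_joins_symm]
  · intro i j
    show ∑ a, (Finset.univ.filter
      (fun e : FinE n m => (finG n m).joins e i j ∧ f e = a)).card = m i j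
    rw [← fin_joins n m hs h0 i j]
    rw [Finset.card_eq_sum_card_fiberwise (f := f)
      (s := Finset.univ.filter (fun e : FinE n m => (finG n m).joins e i j))
      (t := Finset.univ) (fun _ _ => Finset.mem_coe.2 (Finset.mem_univ _))]
    apply Finset.sum_congr rfl
    intro a _
    rw [Finset.filter_filter]
  · intro v a
    show ∑ u, (Finset.univ.filter
      (fun e : FinE n m => (finG n m).joins e v u ∧ f e = a)).card ≤ d
    have h1 := hf a v
    unfold MG.dg MG.deg at h1
    rw [fin_count] at h1
    refine le_trans (le_of_eq ?_) h1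
    apply Finset.sum_congr rfl
    intro u _
    rw [Finset.filter_filter]
    congr 1
    apply Finset.filter_congr
    intro e _
    exact and_comm

/-- multiplicity version: `χ'_d ≤ k` if `Δ + t ≤ k d`, `μ ≤ d t`, `t ≥ 1` -/
theorem matrix_mult (d n : ℕ) (m : Fin n → Fin n → ℕ) (hs : ∀ i j, m i j = m j i) (h0 : ∀ i, m i i = 0) (k t : ℕ)
    (ht : 1 ≤ t) (hdeg : ∀ v : Fin n, (∑ u, m v u) + t ≤ k * d) (hmu : ∀ i j, m i j ≤ d * t) :
    ∃ c : Fin n → Fin n → Fin k → ℕ,
      (∀ i j a, c i j a = c j i a) ∧ (∀ i j, ∑ a, c i j a = m i j) ∧ (∀ v a, ∑ u, c v u a ≤ d) := by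
  refine matrix_local d n m hs h0 k (fun v => by have := hdeg v; omega) ?_
  intro y F hF hy hpos
  left
  have h1 : ∀ z ∈ F, t ≤ k * d - ∑ u, m z u := fun z _ => by have := hdeg z; omega
  calc ∑ z ∈ F, m y z ≤ ∑ z ∈ F, d * t := Finset.sum_le_sum fun z _ => hmu y z
    _ = d * ∑ z ∈ F, t := by rw [Finset.mul_sum]
    _ ≤ d * ∑ z ∈ F, (k * d - ∑ u, m z u) := Nat.mul_le_mul_left d (Finset.sum_le_sum h1)
    _ ≤ d + d * ∑ z ∈ F, (k * d - ∑ u, m z u) := Nat.le_add_left _ _

end Pool.Agent.H77.Df
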