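import Pool.Agent.H77.Df.Phi

/-!
# Balanced 2-colouring of a connected edge set

Take a minimal `f`.  (1) Two different vertices `u`, `v` with `|exc| ≥ 2` which are connected in `A` are impossible:
induction on the length of a path from `u` to `v` for all minimal `f` (move the token along the first edge; if the
next vertex is `v` then `exc v = 0`, contradiction).  (2) If some vertex `u` has `|exc| ≥ 2` and `z` can be reached from
`u`, the token can be moved to `z` (induction on the path); by (1) there is no other one.  All vertices that are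
not reachable from `z` have no edge of `A`, so their excess is `0`.
`balance_card`: `deg = #true + #false`, `exc = #true - #false`.
-/

set_option autoImplicit false

open Finset
open scoped Classical

namespace Pool.Agent.H77.Df

variable {V E : Type} {G : MG V E}

private theorem balance_two [Fintype V] [Fintype E] (A : Finset E) {u v : V} (h : G.Reach A u v) :
    ∀ f : E → Bool, (∀ g : E → Bool, G.Phi A f ≤ G.Phi A g) → u ≠ v → 2 ≤ |G.exc A f u| →
      2 ≤ |G.exc A f v| → False := by
  induction h using Relation.ReflTransGen.head_induction_on with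
  | refl => intro f _ h; exact absurd rfl h
  | @head a c h1 _ ih =>
    intro f hf hne hu hv
    obtain ⟨e, he, hj⟩ := h1
    obtain ⟨_, h2⟩ := token_move hf hu
    obtain ⟨h3, g, hg, _, hgw, hgo⟩ := h2 e he _ hj
    have hne2 : c ≠ v := fun h => by
      rw [← h, h3] at hv
      norm_num at hv
    refine ih g hg hne2 (by rw [hgw]) ?_
    rw [hgo v hne.symm hne2.symm]
    exact hv

private theorem balance_move [Fintype V] [Fintype E] (A : Finset E) {u v : V} (h : G.Reach A u v) :
    ∀ f : E → Bool, (∀ g : E → Bool, G.Phi A f ≤ G.Phi A g) → 2 ≤ |G.exc A f u| →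
      ∃ g : E → Bool, (∀ g' : E → Bool, G.Phi A g ≤ G.Phi A g') ∧ 2 ≤ |G.exc A g v| := by
  induction h using Relation.ReflTransGen.head_induction_on with
  | refl => intro f hf h; exact ⟨f, hf, h⟩
  | head h1 _ ih =>
    intro f hf hu
    obtain ⟨e, he, hj⟩ := h1
    obtain ⟨_, h2⟩ := token_move hf hu
    obtain ⟨_, g, hg, _, hgw, _⟩ := h2 e he _ hj
    exact ih g hg (by rw [hgw])

private theorem balance_reach (A : Finset E) (z : V) (hA : ∀ e ∈ A, G.Reach A z (G.s e)) (f : E → Bool)
    {u : V} (hu : G.exc A f u ≠ 0) : G.Reach A z u := by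
  unfold MG.exc at hu
  obtain ⟨e, he, _⟩ := Finset.exists_ne_zero_of_sum_ne_zero hu
  obtain ⟨he1, he2⟩ := Finset.mem_filter.1 he
  rcases he2 with h | h
  · rw [← h]
    exact hA e he1
  · exact (hA e he1).tail ⟨e, he1, Or.inl ⟨rfl, h⟩⟩

private theorem balance_symm (A : Finset E) {u v : V} (h : G.Reach A u v) : G.Reach A v u := by
  induction h with
  | refl => exact Relation.ReflTransGen.refl
  | tail _ h2 ih =>
    obtain ⟨e, he, hj⟩ := h2
    exact Relation.ReflTransGen.head ⟨e, he, hj.symm⟩ ih

theorem balance [Fintype V] [Fintype E] (A : Finset E) (z : V) (hA : ∀ e ∈ A, G.Reach A z (G.s e)) :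
    ∃ f : E → Bool, (∀ v, v ≠ z → |G.exc A f v| ≤ 1) ∧ |G.exc A f z| ≤ 2 := by
  obtain ⟨f, hf⟩ := phi_min (G := G) A
  by_cases hall : ∀ v, |G.exc A f v| ≤ 1
  · exact ⟨f, fun v _ => hall v, (hall z).trans (by norm_num)⟩
  push Not at hall
  obtain ⟨u, hu⟩ := hall
  have hu2 : 2 ≤ |G.exc A f u| := by omega
  have hr : G.Reach A z u := balance_reach A z hA f fun h => by
    rw [h] at hu
    norm_num at hu
  obtain ⟨g, hg, hgz⟩ := balance_move A (balance_symm A hr) f hf hu2
  refine ⟨g, fun v hv => ?_, (token_move hg hgz).1.le⟩
  by_contra hcon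
  push Not at hcon
  have hv2 : 2 ≤ |G.exc A g v| := by omega
  have hr2 : G.Reach A z v := balance_reach A z hA g fun h => by
    rw [h] at hcon
    norm_num at hcon
  exact balance_two A hr2 g hg hv.symm hgz hv2

theorem balance_card (A : Finset E) (f : E → Bool) (v : V) :
    (2 * (G.deg (A.filter (fun e => f e = true)) v : ℤ) = G.deg A v + G.exc A f v) ∧
      (2 * (G.deg (A.filter (fun e => f e = false)) v : ℤ) = G.deg A v - G.exc A f v) := by
  have h1 : ∀ (B : Finset E), (∑ e ∈ B, sgn (f e) =
      ((B.filter (fun e => f e = true)).card : ℤ) - (B.filter (fun e => f e = false)).card) ∧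
      (B.card : ℤ) = ((B.filter (fun e => f e = true)).card : ℤ) +
        (B.filter (fun e => f e = false)).card := by
    intro B
    induction B using Finset.induction_on with
    | empty => simp
    | insert a s ha ih =>
      obtain ⟨ih1, ih2⟩ := ih
      rw [Finset.sum_insert ha, Finset.card_insert_of_notMem ha, Finset.filter_insert,
        Finset.filter_insert, ih1]
      cases hfa : f a
      · have h2 : a ∉ s.filter (fun e => f e = false) := fun h => ha (Finset.mem_filter.1 h).1
        simp only [sgn, Bool.false_eq_true, if_false, if_true, Finset.card_insert_of_notMem h2]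
        push_cast
        constructor
        · ring
        · rw [ih2]
          ring
      · have h2 : a ∉ s.filter (fun e => f e = true) := fun h => ha (Finset.mem_filter.1 h).1
        simp only [sgn, Bool.true_eq_false, if_false, if_true, Finset.card_insert_of_notMem h2]
        push_cast
        constructor
        · ring
        · rw [ih2]
          ring
  have h2 := h1 (A.filter (fun e => G.inc e v))
  have h3 : G.deg (A.filter (fun e => f e = true)) v =
      ((A.filter (fun e => G.inc e v)).filter (fun e => f e = true)).card := by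
    unfold MG.deg
    rw [Finset.filter_comm]
  have h4 : G.deg (A.filter (fun e => f e = false)) v =
      ((A.filter (fun e => G.inc e v)).filter (fun e => f e = false)).card := by
    unfold MG.deg
    rw [Finset.filter_comm]
  have h5 : G.deg A v = (A.filter (fun e => G.inc e v)).card := rfl
  have h6 : G.exc A f v = ∑ e ∈ A.filter (fun e => G.inc e v), sgn (f e) := rfl
  rw [h3, h4, h5, h6]
  obtain ⟨h7, h8⟩ := h2
  rw [h7, h8]
  constructor <;> ring

end Pool.Agent.H77.Df
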