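import Pool.Agent.H77.Df.FanB

/-!
# Counting

`F` = set of all vertices `z` with a chain from `x`.  `y ∉ F` (chains end at neighbours of `y`, no loops; `x ≠ y`).
`miss_card`: if every missing colour `q` at `v` has `dg q v + 1 = d` then
`|miss v| + deg (A.erase e) v = k d` (sum over all colours).  For `z ∈ F`, `z ≠ x`: `deg (A.erase e) z = deg A z`; for `x` and `y`
one less.  (`fanA` with some colour missing at `y`, which exists since `deg A y ≤ k d - 1`; for `y`: `kempe_xy`.)
By `fanB` the sets `miss z`, `z ∈ F`, are disjoint, and disjoint from `miss y` (`fanA`); so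
`∑_{z ∈ F} |miss z| + |miss y| ≤ k`, i.e. `∑_{z ∈ F} (k d - deg A z) + 1 + (k d - deg A y) + 1 ≤ k`.
Every colour `q` in `M = ⋃ miss z` has degree `d` at `y`, and all edges coloured `q` at `y` go to `F` (`chn_append`).  So the
number of edges of `A` between `y` and `F` is at least `d |M| + 1` (the edge `e`).
-/

set_option autoImplicit false

open Finset
open scoped Classical

namespace Pool.Agent.H77.Df

variable {V E : Type} {G : MG V E}

theorem count_deg_sum {k : ℕ} {B : Finset E} (c : E → Fin k) (v : V) :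
    ∑ q : Fin k, G.dg c B q v = G.deg B v := by
  unfold MG.dg MG.deg
  rw [Finset.card_eq_sum_card_fiberwise (f := c) (s := B.filter (fun e => G.inc e v)) (t := Finset.univ)
    (fun _ _ => Finset.mem_coe.2 (Finset.mem_univ _))]
  refine Finset.sum_congr rfl fun q _ => ?_
  congr 1
  ext g
  simp only [Finset.mem_filter]
  tauto

theorem count_mem_miss {k d : ℕ} {B : Finset E} {c : E → Fin k} {v : V} {q : Fin k} :
    q ∈ G.miss d c B v ↔ G.dg c B q v < d := by
  unfold MG.miss
  simp

theorem count_joins_symm {g : E} {u v : V} (h : G.joins g u v) : G.joins g v u := by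
  rcases h with ⟨h1, h2⟩ | ⟨h1, h2⟩
  · exact Or.inr ⟨h1, h2⟩
  · exact Or.inl ⟨h1, h2⟩

theorem count_joins_ne {g : E} {u v : V} (h : G.joins g u v) : u ≠ v := by
  rintro rfl
  rcases h with ⟨h1, h2⟩ | ⟨h1, h2⟩ <;> exact G.ne g (h1.trans h2.symm)

theorem count_inc_joins {g : E} {u : V} (h : G.inc g u) : ∃ v, G.joins g u v := by
  rcases h with h | h
  · exact ⟨G.t g, Or.inl ⟨h, rfl⟩⟩
  · exact ⟨G.s g, Or.inr ⟨rfl, h⟩⟩

theorem count_chn_end {k d : ℕ} {B : Finset E} {c : E → Fin k} {x y z : V} {L : List (E × V)}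
    (h : G.Chn d c B y x L z) : x = z ∨ ∃ f ∈ B, G.joins f y z := by
  induction h with
  | nil x => exact Or.inl rfl
  | cons x z1 z f L hf hj hm _ ih =>
    right
    rcases ih with ih | ih
    · subst ih
      exact ⟨f, hf, hj⟩
    · exact ih

/-- degrees after removal of the edge -/
theorem count_deg_erase_of_not {A : Finset E} {e : E} {v : V} (hv : ¬ G.inc e v) :
    G.deg (A.erase e) v = G.deg A v := by
  unfold MG.deg
  congr 1
  ext g
  simp only [Finset.mem_filter, Finset.mem_erase]
  constructor
  · rintro ⟨⟨_, h1⟩, h2⟩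
    exact ⟨h1, h2⟩
  · rintro ⟨h1, h2⟩
    exact ⟨⟨fun h3 => hv (h3 ▸ h2), h1⟩, h2⟩

theorem count_deg_erase_of {A : Finset E} {e : E} (he : e ∈ A) {v : V} (hv : G.inc e v) :
    G.deg (A.erase e) v + 1 = G.deg A v := by
  unfold MG.deg
  have h1 : (A.erase e).filter (fun g => G.inc g v) = (A.filter (fun g => G.inc g v)).erase e := by
    ext g
    simp only [Finset.mem_filter, Finset.mem_erase]
    tauto
  rw [h1]
  exact Finset.card_erase_add_one (Finset.mem_filter.2 ⟨he, hv⟩)

theorem count_joins_inc {g : E} {u v w : V} (h : G.joins g u v) : G.inc g w ↔ w = u ∨ w = v := by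
  unfold MG.inc
  rcases h with ⟨h1, h2⟩ | ⟨h1, h2⟩
  · rw [h1, h2]
    constructor
    · rintro (h | h)
      · exact Or.inl h.symm
      · exact Or.inr h.symm
    · rintro (h | h)
      · exact Or.inl h.symm
      · exact Or.inr h.symm
  · rw [h1, h2]
    constructor
    · rintro (h | h)
      · exact Or.inr h.symm
      · exact Or.inl h.symm
    · rintro (h | h)
      · exact Or.inr h.symm
      · exact Or.inl h.symm

theorem miss_card [Fintype E] {k d : ℕ} {B : Finset E} {c : E → Fin k} {v : V}
    (hv : G.Valid d B c) (h1 : ∀ q ∈ G.miss d c B v, G.dg c B q v + 1 = d) :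
    (G.miss d c B v).card + G.deg B v = k * d := by
  rw [← count_deg_sum c v]
  have h2 : (G.miss d c B v).card = ∑ q : Fin k, if q ∈ G.miss d c B v then 1 else 0 := by
    rw [Finset.card_eq_sum_ones, ← Finset.sum_filter]
    refine Finset.sum_congr ?_ fun _ _ => rfl
    ext q
    simp
  rw [h2, ← Finset.sum_add_distrib]
  have h3 : ∀ q ∈ (Finset.univ : Finset (Fin k)),
      (if q ∈ G.miss d c B v then 1 else 0) + G.dg c B q v = d := by
    intro q _
    have h5 := hv q v
    split_ifs with hq
    · have := h1 q hq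
      omega
    · have h4 : ¬ G.dg c B q v < d := fun h => hq (count_mem_miss.2 h)
      omega
  rw [Finset.sum_congr rfl h3, Finset.sum_const, Finset.card_univ, Fintype.card_fin, smul_eq_mul]

theorem fan_count [Fintype V] [Fintype E] {k d : ℕ} {A : Finset E} {e : E} {c : E → Fin k} {x y : V}
    (h : G.St d A e c x y) (hdeg : ∀ v, G.deg A v + 1 ≤ k * d) :
    ∃ F : Finset V, x ∈ F ∧ y ∉ F ∧ (∀ z ∈ F, ∃ g ∈ A, G.joins g y z) ∧
      1 + d + d * ∑ z ∈ F, (k * d - G.deg A z) ≤ (A.filter (fun g => ∃ z ∈ F, G.joins g y z)).card ∧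
      ∑ z ∈ insert y F, (k * d - G.deg A z) + 2 ≤ k := by
  have hxy : x ≠ y := count_joins_ne h.jn
  have hex : G.inc e x := (count_joins_inc h.jn).2 (Or.inl rfl)
  have hey : G.inc e y := (count_joins_inc h.jn).2 (Or.inr rfl)
  have hdx := count_deg_erase_of h.mem hex
  have hdy := count_deg_erase_of h.mem hey
  -- colours are missing at `x` and at `y`
  have hne : ∀ v, (G.miss d c (A.erase e) v).Nonempty := by
    intro v
    by_contra hcon
    rw [Finset.not_nonempty_iff_eq_empty] at hcon
    have h1 := miss_card (v := v) h.val (by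
      intro q hq
      rw [hcon] at hq
      exact absurd hq (Finset.notMem_empty q))
    rw [hcon, Finset.card_empty, zero_add] at h1
    have h2 := hdeg v
    have h3 : G.deg (A.erase e) v ≤ G.deg A v := by
      unfold MG.deg
      exact Finset.card_le_card (Finset.filter_subset_filter _ (Finset.erase_subset _ _))
    omega
  obtain ⟨qy, hqy⟩ := hne y
  obtain ⟨qx, hqx⟩ := hne x
  set F : Finset V := Finset.univ.filter (fun z => ∃ L, G.Chn d c (A.erase e) y x L z) with hF
  have hmF : ∀ z, z ∈ F ↔ ∃ L, G.Chn d c (A.erase e) y x L z := by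
    intro z
    rw [hF, Finset.mem_filter]
    simp
  have hxF : x ∈ F := (hmF x).2 ⟨[], MG.Chn.nil x⟩
  have hjF : ∀ z ∈ F, ∃ g ∈ A, G.joins g y z := by
    intro z hz
    obtain ⟨L, hL⟩ := (hmF z).1 hz
    rcases count_chn_end hL with h1 | ⟨f, hf, hj⟩
    · subst h1
      exact ⟨e, h.mem, count_joins_symm h.jn⟩
    · exact ⟨f, Finset.mem_of_mem_erase hf, hj⟩
  have hyF : y ∉ F := by
    intro hy
    obtain ⟨g, _, hg⟩ := hjF y hy
    exact count_joins_ne hg rfl
  -- sizes
  have hsz : ∀ z ∈ F, z ≠ x → (G.miss d c (A.erase e) z).card = k * d - G.deg A z := by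
    intro z hz hzx
    obtain ⟨L, hL⟩ := (hmF z).1 hz
    have h1 := miss_card (v := z) h.val (fun q hq => (fanA h hL hq hqy).2)
    have hzy : z ≠ y := fun h2 => hyF (h2 ▸ hz)
    have h2 : ¬ G.inc e z := by
      rw [count_joins_inc h.jn]
      rintro (h3 | h3)
      · exact hzx h3
      · exact hzy h3
    rw [count_deg_erase_of_not h2] at h1
    omega
  have hsx : (G.miss d c (A.erase e) x).card = k * d - G.deg A x + 1 := by
    have h1 := miss_card (v := x) h.val (fun q hq => (kempe_xy h hq hqy).1)
    have h2 := hdeg x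
    omega
  have hsy : (G.miss d c (A.erase e) y).card = k * d - G.deg A y + 1 := by
    have h1 := miss_card (v := y) h.val (fun q hq => (kempe_xy h hqx hq).2.2.1)
    have h2 := hdeg y
    omega
  have hsum : ∑ z ∈ F, (G.miss d c (A.erase e) z).card = ∑ z ∈ F, (k * d - G.deg A z) + 1 := by
    rw [← Finset.add_sum_erase F _ hxF, ← Finset.add_sum_erase F (fun z => k * d - G.deg A z) hxF, hsx]
    have h1 : ∑ z ∈ F.erase x, (G.miss d c (A.erase e) z).card = ∑ z ∈ F.erase x, (k * d - G.deg A z) := by
      refine Finset.sum_congr rfl fun z hz => ?_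
      rw [Finset.mem_erase] at hz
      exact hsz z hz.2 hz.1
    rw [h1]
    ring
  -- disjointness
  have hdis : ∀ z ∈ F, ∀ z' ∈ F, z ≠ z' →
      Disjoint (G.miss d c (A.erase e) z) (G.miss d c (A.erase e) z') := by
    intro z hz z' hz' hzz
    rw [Finset.disjoint_left]
    intro q hq hq'
    exact hzz (fanB h ⟨qy, hqy⟩ ((hmF z).1 hz) ((hmF z').1 hz') hq hq')
  have hdisy : ∀ z ∈ F, Disjoint (G.miss d c (A.erase e) z) (G.miss d c (A.erase e) y) := by
    intro z hz
    rw [Finset.disjoint_left]
    intro q hq hq'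
    obtain ⟨L, hL⟩ := (hmF z).1 hz
    exact (fanA h hL hq hq').1 rfl
  refine ⟨F, hxF, hyF, hjF, ?_, ?_⟩
  · -- the edges between `y` and `F`
    set M : Finset (Fin k) := F.biUnion (fun z => G.miss d c (A.erase e) z) with hM
    have hMc : M.card = ∑ z ∈ F, (k * d - G.deg A z) + 1 := by
      rw [hM, Finset.card_biUnion hdis, hsum]
    have hMd : ∀ q ∈ M, G.dg c (A.erase e) q y = d := by
      intro q hq
      rw [hM, Finset.mem_biUnion] at hq
      obtain ⟨z, hz, hqz⟩ := hq
      have h1 : q ∉ G.miss d c (A.erase e) y := fun h2 => (Finset.disjoint_left.1 (hdisy z hz)) hqz h2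
      rw [count_mem_miss] at h1
      have h2 := h.val q y
      omega
    have hsub : insert e (M.biUnion (fun q => ((A.erase e).filter (fun g => c g = q)).filter
        (fun g => G.inc g y))) ⊆ A.filter (fun g => ∃ z ∈ F, G.joins g y z) := by
      intro g hg
      rw [Finset.mem_insert] at hg
      rw [Finset.mem_filter]
      rcases hg with hg | hg
      · subst hg
        exact ⟨h.mem, x, hxF, count_joins_symm h.jn⟩
      · rw [Finset.mem_biUnion] at hg
        obtain ⟨q, hq, hg⟩ := hg
        rw [Finset.mem_filter, Finset.mem_filter] at hg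
        obtain ⟨⟨hgB, hgq⟩, hgy⟩ := hg
        obtain ⟨z', hz'⟩ := count_inc_joins hgy
        rw [hM, Finset.mem_biUnion] at hq
        obtain ⟨z, hz, hqz⟩ := hq
        obtain ⟨L, hL⟩ := (hmF z).1 hz
        refine ⟨Finset.mem_of_mem_erase hgB, z', ?_, hz'⟩
        refine (hmF z').2 ⟨L ++ [(g, z')], chn_append hL hgB hz' ?_⟩
        rw [hgq]
        exact hqz
    refine le_trans ?_ (Finset.card_le_card hsub)
    rw [Finset.card_insert_of_notMem, Finset.card_biUnion]
    · have h1 : ∀ q ∈ M, (((A.erase e).filter (fun g => c g = q)).filter (fun g => G.inc g y)).card = d := by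
        intro q hq
        exact hMd q hq
      rw [Finset.sum_congr rfl h1, Finset.sum_const, smul_eq_mul, hMc]
      apply le_of_eq
      ring
    · intro q _ q' _ hqq
      refine Finset.disjoint_left.2 ?_
      intro g hg hg'
      rw [Finset.mem_filter, Finset.mem_filter] at hg hg'
      exact hqq (hg.1.2.symm.trans hg'.1.2)
    · intro hcon
      rw [Finset.mem_biUnion] at hcon
      obtain ⟨q, _, hg⟩ := hcon
      rw [Finset.mem_filter, Finset.mem_filter] at hg
      exact (Finset.mem_erase.1 hg.1.1).1 rfl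
  · -- all missing colours
    have hdis' : ∀ z ∈ insert y F, ∀ z' ∈ insert y F, z ≠ z' →
        Disjoint (G.miss d c (A.erase e) z) (G.miss d c (A.erase e) z') := by
      intro z hz z' hz' hzz
      rw [Finset.mem_insert] at hz hz'
      rcases hz with hz | hz <;> rcases hz' with hz' | hz'
      · exact absurd (hz.trans hz'.symm) hzz
      · subst hz
        exact (hdisy z' hz').symm
      · subst hz'
        exact hdisy z hz
      · exact hdis z hz z' hz' hzz
    have h1 : ((insert y F).biUnion (fun z => G.miss d c (A.erase e) z)).card ≤ k := by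
      refine (Finset.card_le_univ _).trans ?_
      rw [Fintype.card_fin]
    rw [Finset.card_biUnion hdis', Finset.sum_insert hyF, hsy, hsum] at h1
    rw [Finset.sum_insert hyF]
    omega

end Pool.Agent.H77.Df
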