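import Mathlib

/-!
# Defective edge colouring (MP_8dcef0_co): definitions

A loopless multigraph is given by an edge type `E` and two ends `s e ≠ t e`.
-/

set_option autoImplicit false

open Finset
open scoped Classical

namespace Pool.Agent.H77.Df

noncomputable section

/-- loopless multigraph -/
structure MG (V E : Type) where
  s : E → V
  t : E → V
  ne : ∀ e, s e ≠ t e

variable {V E : Type}

/-- the edge `e` is incident with `v` -/
def MG.inc (G : MG V E) (e : E) (v : V) : Prop := G.s e = v ∨ G.t e = v

/-- the edge `e` joins `u` and `v` -/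
def MG.joins (G : MG V E) (e : E) (u v : V) : Prop := (G.s e = u ∧ G.t e = v) ∨ (G.s e = v ∧ G.t e = u)

/-- degree of `v` in the edge set `A` -/
def MG.deg (G : MG V E) (A : Finset E) (v : V) : ℕ := (A.filter (fun e => G.inc e v)).card

/-- `v` can be reached from `u` by edges of `A` -/
def MG.Reach (G : MG V E) (A : Finset E) (u v : V) : Prop :=
  Relation.ReflTransGen (fun a b => ∃ e ∈ A, G.joins e a b) u v

/-- degree of `v` in colour `a` -/
def MG.dg (G : MG V E) {k : ℕ} (c : E → Fin k) (B : Finset E) (a : Fin k) (v : V) : ℕ :=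
  G.deg (B.filter (fun e => c e = a)) v

/-- every colour class of the edges in `B` has maximum degree at most `d` -/
def MG.Valid (G : MG V E) {k : ℕ} (d : ℕ) (B : Finset E) (c : E → Fin k) : Prop :=
  ∀ (a : Fin k) (v : V), G.dg c B a v ≤ d

/-- the edge set `A` has a colouring with `k` colours and defect `d` -/
def MG.Colourable (G : MG V E) (d k : ℕ) (A : Finset E) : Prop := ∃ c : E → Fin k, G.Valid d A c

/-- the colour `a` is missing at `v` -/
def MG.miss (G : MG V E) {k : ℕ} (d : ℕ) (c : E → Fin k) (B : Finset E) (v : V) : Finset (Fin k) :=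
  Finset.univ.filter (fun a => G.dg c B a v < d)

/-- critical state: `A` is not colourable, the edge `e ∈ A` joins `x` and `y`, and `c` is valid on `A` without `e` -/
structure MG.St (G : MG V E) {k : ℕ} (d : ℕ) (A : Finset E) (e : E) (c : E → Fin k) (x y : V) : Prop where
  not : ¬ G.Colourable d k A
  mem : e ∈ A
  jn : G.joins e x y
  val : G.Valid d (A.erase e) c

/-- sign -/
def sgn (b : Bool) : ℤ := if b then 1 else -1

/-- excess at `v` of the colour `true` over `false` in the edge set `A` -/
def MG.exc (G : MG V E) (A : Finset E) (f : E → Bool) (v : V) : ℤ :=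
  ∑ e ∈ A.filter (fun e => G.inc e v), sgn (f e)

/-- alternating trail from `u` to `v`, first colour `b`, last colour `b'`, list of edges -/
inductive MG.Tr (G : MG V E) (A : Finset E) (f : E → Bool) : V → V → Bool → Bool → List E → Prop
  | one (e : E) (u v : V) : e ∈ A → G.joins e u v → MG.Tr G A f u v (f e) (f e) [e]
  | cons (e : E) (u w v : V) (b' : Bool) (L : List E) : e ∈ A → G.joins e u w → e ∉ L →
      MG.Tr G A f w v (!f e) b' L → MG.Tr G A f u v (f e) b' (e :: L)

/-- exchange of the colours along a list of edges -/
def flipL (f : E → Bool) (L : List E) (e : E) : Bool := if e ∈ L then !f e else f e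

/-- chain of a fan at `y` from `x` to `z`: `L` is the list of the pairs (edge, new vertex) -/
inductive MG.Chn (G : MG V E) {k : ℕ} (d : ℕ) (c : E → Fin k) (B : Finset E) (y : V) :
    V → List (E × V) → V → Prop
  | nil (x : V) : MG.Chn G d c B y x [] x
  | cons (x z1 z : V) (f : E) (L : List (E × V)) : f ∈ B → G.joins f y z1 → c f ∈ G.miss d c B x →
      MG.Chn G d c B y z1 L z → MG.Chn G d c B y x ((f, z1) :: L) z

end

end Pool.Agent.H77.Df
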