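import Pool.Agent.H77.Df.ShiftL

/-!
# Missing colours of the vertices of a fan

`chn_simple`: a shortest chain from `x` to `z` is simple (cut out a repeated vertex: tails of a chain are chains
starting at the corresponding vertex, `Chn` for a vertex reached twice can be shortened).
`fanA`: take a simple chain, `shift_list`, then `kempe_xy` for the shifted state (`a = q`, `b = q'`): `q` is still missing at
`z`, so `dg c' q z + 1 = d`, and `dg c' q z ≤ dg c q z < d`, so `dg c q z + 1 = d`; `q ≠ q'`.
-/

set_option autoImplicit false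

open Finset
open scoped Classical

namespace Pool.Agent.H77.Df

variable {V E : Type} {G : MG V E}

theorem fana_tail {k d : ℕ} {B : Finset E} {c : E → Fin k} {x y z : V} {L : List (E × V)}
    (h : G.Chn d c B y x L z) {w : V} (hw : w ∈ x :: L.map Prod.snd) :
    ∃ L', G.Chn d c B y w L' z ∧ L'.length ≤ L.length := by
  induction h with
  | nil x =>
    have hx : w = x := by simpa using hw
    subst hx
    exact ⟨[], MG.Chn.nil w, le_refl _⟩
  | cons x z1 z f L hf hj hm hc ih =>
    rcases List.mem_cons.1 hw with hx | hx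
    · subst hx
      exact ⟨(f, z1) :: L, MG.Chn.cons w z1 z f L hf hj hm hc, le_refl _⟩
    · obtain ⟨L', h1, h2⟩ := ih (by simpa using hx)
      exact ⟨L', h1, h2.trans (by simp)⟩

theorem chn_simple {k d : ℕ} {B : Finset E} {c : E → Fin k} {x y z : V} {L : List (E × V)}
    (h : G.Chn d c B y x L z) (hmin : ∀ L', G.Chn d c B y x L' z → L.length ≤ L'.length) :
    (x :: L.map Prod.snd).Nodup := by
  induction h with
  | nil x => simp
  | cons x z1 z f L hf hj hm hc ih =>
    have h1 : (z1 :: L.map Prod.snd).Nodup := by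
      refine ih ?_
      intro L' hL'
      have := hmin ((f, z1) :: L') (MG.Chn.cons x z1 z f L' hf hj hm hL')
      simpa using this
    have h2 : x ∉ z1 :: L.map Prod.snd := by
      intro hx
      obtain ⟨L', h3, h4⟩ := fana_tail hc hx
      have h5 := hmin L' h3
      simp only [List.length_cons] at h5
      omega
    have h6 : (x :: z1 :: L.map Prod.snd).Nodup := List.nodup_cons.2 ⟨h2, h1⟩
    simpa using h6

/-- the chain can be extended at its end -/
theorem chn_append {k d : ℕ} {B : Finset E} {c : E → Fin k} {x y z z' : V} {L : List (E × V)}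
    (h : G.Chn d c B y x L z) {f : E} (hf : f ∈ B) (hj : G.joins f y z') (hm : c f ∈ G.miss d c B z) :
    G.Chn d c B y x (L ++ [(f, z')]) z' := by
  induction h with
  | nil x => exact MG.Chn.cons x z' z' f [] hf hj hm (MG.Chn.nil z')
  | cons x z1 z f1 L hf1 hj1 hm1 hc ih =>
    exact MG.Chn.cons x z1 z' f1 (L ++ [(f, z')]) hf1 hj1 hm1 (ih hm)

theorem fanA [Fintype V] [Fintype E] {k d : ℕ} {A : Finset E} {e : E} {c : E → Fin k} {x y z : V}
    (h : G.St d A e c x y) {L : List (E × V)} (hL : G.Chn d c (A.erase e) y x L z) {q q' : Fin k}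
    (hq : q ∈ G.miss d c (A.erase e) z) (hq' : q' ∈ G.miss d c (A.erase e) y) :
    q ≠ q' ∧ G.dg c (A.erase e) q z + 1 = d := by
  have hex : ∃ n : ℕ, ∃ L0, G.Chn d c (A.erase e) y x L0 z ∧ L0.length = n := ⟨_, L, hL, rfl⟩
  obtain ⟨L0, hL0, hn⟩ := Nat.find_spec hex
  have hmin : ∀ L', G.Chn d c (A.erase e) y x L' z → L0.length ≤ L'.length := by
    intro L' hL'
    rw [hn]
    exact Nat.find_min' hex ⟨L', hL', rfl⟩
  obtain ⟨e', c', hst, -, hy, hzz⟩ := shift_list L0 h hL0 (chn_simple hL0 hmin)
  have hq1 : G.dg c (A.erase e) q z < d := by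
    simpa [MG.miss] using hq
  have hq2 : G.dg c (A.erase e) q' y < d := by
    simpa [MG.miss] using hq'
  have hq3 : q ∈ G.miss d c' (A.erase e') z := by
    simp only [MG.miss, Finset.mem_filter, Finset.mem_univ, true_and]
    exact lt_of_le_of_lt (hzz q) hq1
  have hq4 : q' ∈ G.miss d c' (A.erase e') y := by
    simp only [MG.miss, Finset.mem_filter, Finset.mem_univ, true_and]
    rw [hy q']
    exact hq2
  refine ⟨(kempe hst hq3 hq4).1, ?_⟩
  have h1 := (kempe_xy hst hq3 hq4).1
  have h2 := hzz q
  omega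

end Pool.Agent.H77.Df
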