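import Pool.Agent.H77.Df.FanA

/-!
# Different vertices of a fan miss different colours

Suppose the colour `q` is missing at two different vertices of the fan.  Among all vertices `z` of the fan with
`q ∈ miss z` and all chains `L` to `z` choose one with `L` shortest; let `z'` be another vertex of the fan with `q ∈ miss z'`.
Let `b ∈ miss y`.  No edge of `L` has colour `q` (it is missing at the previous vertex, which has a shorter chain) nor `b`
(`fanA` for the previous vertex).
(1) Let `C` be the set of vertices reachable from `z'` by edges of `B = A.erase e` coloured `q` or `b`.  Then `y ∉ C`: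
shift along `L` (`chn_simple`, `shift_list`) to the state `(e', c')`; the edges coloured `q`, `b` are the same sets for `c` and
`c'`; if `y ∈ C` then `z'` is reachable from `z` in `kmp A e' c' q b` (through `y`, `e'` joins `z` and `y`), so by
`kempe_other` `dg c' q z' = d`, but `dg c' q z' = dg c q z' < d` (`z' ≠ z`, `z' ≠ y`).
(2) Exchange `q` and `b` on `C` (`swap_st`).  Edges at `y` keep their colours, `miss y` is unchanged.  Let
`x = w0, w1, ..., ws = z'` be a chain to `z'` and `j` the least index with `wj ∈ C` and `q ∈ miss wj`.  The chain up to `wj` is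
a chain for the new colouring (for `i < j`: if `wi ∉ C` nothing changes at `wi`; if `wi ∈ C` then `q`, `b` are not missing at
`wi`, both have degree `d`).  Now `b` is missing at `wj` and at `y`, contradiction to `fanA`.
-/

set_option autoImplicit false

open Finset
open scoped Classical

namespace Pool.Agent.H77.Df

variable {V E : Type} {G : MG V E}

private theorem fanB_joins_symm {e : E} {u v : V} (h : G.joins e u v) : G.joins e v u := by
  rcases h with h | h
  · exact Or.inr h
  · exact Or.inl h

private theorem fanB_reach_symm {S : Finset E} {u v : V} (h : G.Reach S u v) : G.Reach S v u := by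
  unfold MG.Reach at h ⊢
  induction h with
  | refl => exact Relation.ReflTransGen.refl
  | tail _ hbc ih =>
    obtain ⟨e, he, hj⟩ := hbc
    exact Relation.ReflTransGen.head ⟨e, he, fanB_joins_symm hj⟩ ih

private theorem fanB_reach_mono {S T : Finset E} (hST : S ⊆ T) {u v : V} (h : G.Reach S u v) :
    G.Reach T u v := by
  unfold MG.Reach at h ⊢
  induction h with
  | refl => exact Relation.ReflTransGen.refl
  | tail _ hbc ih =>
    obtain ⟨e, he, hj⟩ := hbc
    exact Relation.ReflTransGen.tail ih ⟨e, hST he, hj⟩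

/-- the previous vertex of every edge of a chain has a shorter chain -/
private theorem fanB_prev {k d : ℕ} {B : Finset E} {c : E → Fin k} {y : V} :
    ∀ (L : List (E × V)) {x z : V}, G.Chn d c B y x L z → ∀ r ∈ L,
      ∃ (w : V) (L1 : List (E × V)), G.Chn d c B y x L1 w ∧ L1.length < L.length ∧
        c r.1 ∈ G.miss d c B w := by
  intro L
  induction L with
  | nil => intro x z _ r hr; exact absurd hr (by simp)
  | cons p L ih =>
    intro x z h r hr
    cases h with
    | cons _ z1 _ f _ hf hj hm hc =>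
      rcases List.mem_cons.1 hr with hr | hr
      · refine ⟨x, [], MG.Chn.nil x, by simp, ?_⟩
        rw [hr]; exact hm
      · obtain ⟨w, L1, h1, h2, h3⟩ := ih hc r hr
        exact ⟨w, (f, z1) :: L1, MG.Chn.cons x z1 w f L1 hf hj hm h1, by simpa using h2, h3⟩

/-- the chain after the exchange of colours -/
private theorem fanB_chain [Fintype V] [Fintype E] {k d : ℕ} {A : Finset E} {e : E} {c : E → Fin k} {x y z' : V}
    (h : G.St d A e c x y) {C : Set V} {q b : Fin k} (hqb : q ≠ b)
    (hC : ∀ g ∈ A.erase e, c g = q ∨ c g = b → (G.s g ∈ C ↔ G.t g ∈ C))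
    (hb : b ∈ G.miss d c (A.erase e) y) (hyC : y ∉ C) (hz'C : z' ∈ C)
    (hq' : q ∈ G.miss d c (A.erase e) z') :
    ∀ (L : List (E × V)) {w : V} {L0 : List (E × V)}, G.Chn d c (A.erase e) y x L0 w →
      G.Chn d c (A.erase e) y w L z' →
      ∃ (L2 : List (E × V)) (v : V), G.Chn d (swp G c C q b) (A.erase e) y w L2 v ∧ v ∈ C ∧
        q ∈ G.miss d c (A.erase e) v := by
  intro L
  induction L with
  | nil =>
    intro w L0 _ hL
    cases hL
    exact ⟨[], z', MG.Chn.nil z', hz'C, hq'⟩
  | cons p L ih =>
    intro w L0 h0 hL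
    by_cases hw : w ∈ C ∧ q ∈ G.miss d c (A.erase e) w
    · exact ⟨[], w, MG.Chn.nil w, hw.1, hw.2⟩
    · cases hL with
      | cons _ z1 _ f _ hf hj hm hc =>
        obtain ⟨L2, v, h1, h2, h3⟩ := ih (chn_append h0 hf hj hm) hc
        refine ⟨(f, z1) :: L2, v, MG.Chn.cons w z1 v f L2 hf hj ?_ h1, h2, h3⟩
        have hcf : swp G c C q b f = c f := by
          unfold swp
          by_cases hcf : c f = q ∨ c f = b
          · have h4 := hC f hf hcf
            have h5 : ¬ (G.s f ∈ C ∨ G.t f ∈ C) := by
              rcases hj with ⟨hs, ht⟩ | ⟨hs, ht⟩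
              · rw [hs, ht] at h4 ⊢
                tauto
              · rw [hs, ht] at h4 ⊢
                tauto
            rw [if_neg h5]
          · rw [not_or] at hcf
            rw [if_neg hcf.1, if_neg hcf.2, ite_self]
        rw [hcf]
        have hsw := swap_dg (G := G) (B := A.erase e) (c := c) (C := C) hqb hC w
        have hm' : G.dg c (A.erase e) (c f) w < d := by
          have := hm
          unfold MG.miss at this
          exact (mem_filter.1 this).2
        unfold MG.miss
        rw [mem_filter]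
        refine ⟨mem_univ _, ?_⟩
        by_cases hwC : w ∈ C
        · have hnq : c f ≠ q := by
            intro hh
            exact hw ⟨hwC, hh ▸ hm⟩
          have hnb : c f ≠ b := (fanA h h0 hm hb).1
          rw [hsw.2.2 (c f) hnq hnb]
          exact hm'
        · rw [hsw.2.1 hwC (c f)]
          exact hm'

private theorem fanB_aux [Fintype V] [Fintype E] {k d : ℕ} {A : Finset E} {e : E} {c : E → Fin k} {x y z z' : V}
    (h : G.St d A e c x y) {b q : Fin k} (hb : b ∈ G.miss d c (A.erase e) y)
    {L L' : List (E × V)} (hL : G.Chn d c (A.erase e) y x L z) (hL' : G.Chn d c (A.erase e) y x L' z')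
    (hq : q ∈ G.miss d c (A.erase e) z) (hq' : q ∈ G.miss d c (A.erase e) z')
    (hmin : ∀ (z1 : V) (L1 : List (E × V)), G.Chn d c (A.erase e) y x L1 z1 →
      q ∈ G.miss d c (A.erase e) z1 → L.length ≤ L1.length) (hne : z' ≠ z) : False := by
  have hqb : q ≠ b := (fanA h hL hq hb).1
  have hz'y : z' ≠ y := by
    intro hh
    rw [hh] at hq'
    exact (fanA h hL hq hq').1 rfl
  have hLq : ∀ r ∈ L, c r.1 ≠ q := by
    intro r hr hrq
    obtain ⟨w, L1, h1, h2, h3⟩ := fanB_prev L hL r hr
    rw [hrq] at h3
    have := hmin w L1 h1 h3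
    omega
  have hLb : ∀ r ∈ L, c r.1 ≠ b := by
    intro r hr hrb
    obtain ⟨w, L1, h1, h2, h3⟩ := fanB_prev L hL r hr
    rw [hrb] at h3
    exact (fanA h h1 h3 hb).1 rfl
  have hnd := chn_simple hL (fun L1 h1 => hmin z L1 h1 hq)
  obtain ⟨e', c', hst, hcol, hdy, hdz⟩ := shift_list L h hL hnd
  set F := (A.erase e).filter (fun g => c g = q ∨ c g = b) with hF
  set C : Set V := {v | G.Reach F z' v} with hCdef
  have hC : ∀ g ∈ A.erase e, c g = q ∨ c g = b → (G.s g ∈ C ↔ G.t g ∈ C) := by
    intro g hg hcg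
    have hgF : g ∈ F := mem_filter.2 ⟨hg, hcg⟩
    constructor
    · intro hs
      exact Relation.ReflTransGen.tail hs ⟨g, hgF, Or.inl ⟨rfl, rfl⟩⟩
    · intro ht
      exact Relation.ReflTransGen.tail ht ⟨g, hgF, Or.inr ⟨rfl, rfl⟩⟩
  have hz'C : z' ∈ C := Relation.ReflTransGen.refl
  have hyC : y ∉ C := by
    intro hy
    have hy' : G.Reach F z' y := hy
    have hsub : F ⊆ kmp A e' c' q b := by
      intro g hg
      rw [hF, mem_filter] at hg
      unfold kmp
      rw [mem_insert, mem_filter]
      right
      rcases hg.2 with h1 | h1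
      · have := (hcol q hLq g).2 ⟨hg.1, h1⟩
        exact ⟨this.1, Or.inl this.2⟩
      · have := (hcol b hLb g).2 ⟨hg.1, h1⟩
        exact ⟨this.1, Or.inr this.2⟩
    have h1 : G.Reach (kmp A e' c' q b) y z' := fanB_reach_symm (fanB_reach_mono hsub hy')
    have h2 : G.Reach (kmp A e' c' q b) z z' :=
      Relation.ReflTransGen.head ⟨e', by unfold kmp; exact mem_insert_self _ _, hst.jn⟩ h1
    have hqm : q ∈ G.miss d c' (A.erase e') z := by
      unfold MG.miss at hq ⊢
      rw [mem_filter] at hq ⊢
      exact ⟨mem_univ _, lt_of_le_of_lt (hdz q) hq.2⟩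
    have hbm : b ∈ G.miss d c' (A.erase e') y := by
      unfold MG.miss at hb ⊢
      rw [mem_filter] at hb ⊢
      exact ⟨mem_univ _, by rw [hdy b]; exact hb.2⟩
    have h3 := (kempe_other hst hqm hbm hne hz'y h2).1
    have h4 : G.dg c' (A.erase e') q z' = G.dg c (A.erase e) q z' := by
      unfold MG.dg
      congr 1
      ext g
      rw [mem_filter, mem_filter]
      exact hcol q hLq g
    have h5 : G.dg c (A.erase e) q z' < d := by
      unfold MG.miss at hq'
      exact (mem_filter.1 hq').2
    omega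
  obtain ⟨L2, v, h1, h2, h3⟩ := fanB_chain h hqb hC hb hyC hz'C hq' L' (MG.Chn.nil x) hL'
  have hst2 := swap_st h hqb hC
  have hv := (swap_dg (G := G) (B := A.erase e) (c := c) (C := C) hqb hC v).1 h2
  have hyd := (swap_dg (G := G) (B := A.erase e) (c := c) (C := C) hqb hC y).2.1 hyC b
  have hbv : b ∈ G.miss d (swp G c C q b) (A.erase e) v := by
    unfold MG.miss at h3 ⊢
    rw [mem_filter] at h3 ⊢
    exact ⟨mem_univ _, by rw [hv.2]; exact h3.2⟩
  have hby : b ∈ G.miss d (swp G c C q b) (A.erase e) y := by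
    unfold MG.miss at hb ⊢
    rw [mem_filter] at hb ⊢
    exact ⟨mem_univ _, by rw [hyd]; exact hb.2⟩
  exact (fanA hst2 h1 hbv hby).1 rfl

theorem fanB [Fintype V] [Fintype E] {k d : ℕ} {A : Finset E} {e : E} {c : E → Fin k} {x y z z' : V}
    (h : G.St d A e c x y) (hy : (G.miss d c (A.erase e) y).Nonempty)
    (hz : ∃ L, G.Chn d c (A.erase e) y x L z) (hz' : ∃ L, G.Chn d c (A.erase e) y x L z') {q : Fin k}
    (hq : q ∈ G.miss d c (A.erase e) z) (hq' : q ∈ G.miss d c (A.erase e) z') : z = z' := by
  by_contra hne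
  obtain ⟨b, hb⟩ := hy
  obtain ⟨L1, hL1⟩ := hz
  obtain ⟨L2, hL2⟩ := hz'
  have hex : ∃ n, ∃ (z0 : V) (L0 : List (E × V)), L0.length = n ∧ G.Chn d c (A.erase e) y x L0 z0 ∧
      q ∈ G.miss d c (A.erase e) z0 := ⟨L1.length, z, L1, rfl, hL1, hq⟩
  obtain ⟨z0, L0, hlen, hL0, hq0⟩ := Nat.find_spec hex
  have hmin : ∀ (z1 : V) (L1 : List (E × V)), G.Chn d c (A.erase e) y x L1 z1 →
      q ∈ G.miss d c (A.erase e) z1 → L0.length ≤ L1.length := by
    intro z1 L1 h1 h2
    rw [hlen]
    exact Nat.find_min' hex ⟨z1, L1, rfl, h1, h2⟩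
  by_cases hz0 : z = z0
  · have hne' : z' ≠ z0 := by
      intro hh
      exact hne (hz0.trans hh.symm)
    exact fanB_aux h hb hL0 hL2 hq0 hq' hmin hne'
  · exact fanB_aux h hb hL0 hL1 hq0 hq hmin hz0

end Pool.Agent.H77.Df
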