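import Pool.Agent.H77.Df.Balance

/-!
# Kempe classes

`kempe`: if `a = b`, colour `e` with `a` (valid: at `x` and `y` the colour `a` has degree `< d`).  Let
`H = {edges of A without e coloured a or b} ∪ {e}`.  All degrees in `H` are at most `2 d` (at `x`, `y` because `a` resp.
`b` is missing).  Suppose some `v` reachable from `x` in `H` has `deg H v < 2 d`.  Let `H'` be the set of edges of `H` with
an end reachable from `x` (then both ends are).  `balance` for `H'` and `z = v` gives `f`; recolour the edges of `H'`: `a` if
`f` is true, else `b`; all other edges keep `c`.  For a reachable vertex `u` all edges of `H` at `u` are in `H'`, and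
`balance_card` shows that both colours have degree at most `d` (`deg H u ≤ 2 d` and `|exc| ≤ 1`; at `v`: `deg H v ≤ 2 d - 1`
and `|exc| ≤ 2`, parity).  For a vertex that is not reachable nothing changes.  So `A` would be colourable.
`kempe_x`: `deg H x = dg a x + dg b x + 1`.
-/

set_option autoImplicit false

open Finset
open scoped Classical

namespace Pool.Agent.H77.Df

variable {V E : Type} {G : MG V E}

/-- the Kempe graph of the colours `a`, `b` together with the uncoloured edge -/
noncomputable def kmp {k : ℕ} (A : Finset E) (e : E) (c : E → Fin k) (a b : Fin k) : Finset E :=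
  insert e ((A.erase e).filter (fun g => c g = a ∨ c g = b))

private theorem kempe_inc {e : E} {x y v : V} (h : G.joins e x y) : G.inc e v ↔ v = x ∨ v = y := by
  unfold MG.inc
  unfold MG.joins at h
  rcases h with ⟨h1, h2⟩ | ⟨h1, h2⟩
  · rw [h1, h2]
    tauto
  · rw [h1, h2]
    tauto

private theorem kempe_symm {A : Finset E} {u v : V} (h : G.Reach A u v) : G.Reach A v u := by
  induction h with
  | refl => exact Relation.ReflTransGen.refl
  | tail _ h2 ih =>
    obtain ⟨g, hg, hj⟩ := h2
    refine Relation.ReflTransGen.head ⟨g, hg, ?_⟩ ih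
    unfold MG.joins at *
    tauto

private theorem kempe_deg {k : ℕ} {A : Finset E} {e : E} {c : E → Fin k} {a b : Fin k} (hab : a ≠ b) (v : V) :
    G.deg (kmp A e c a b) v = (if G.inc e v then 1 else 0) + (G.dg c (A.erase e) a v + G.dg c (A.erase e) b v) := by
  have h1 : (kmp A e c a b).filter (fun g => G.inc g v) =
      (if G.inc e v then {e} else ∅) ∪
        ((((A.erase e).filter (fun g => c g = a)).filter (fun g => G.inc g v)) ∪
          (((A.erase e).filter (fun g => c g = b)).filter (fun g => G.inc g v))) := by
    ext g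
    unfold kmp
    by_cases hg : g = e
    · subst hg
      by_cases hi : G.inc g v
      · simp [hi]
      · simp [hi]
    · by_cases hi : G.inc e v
      · simp only [Finset.mem_filter, Finset.mem_insert, Finset.mem_erase, Finset.mem_union, hg, hi, if_true,
          Finset.mem_singleton, false_or]
        tauto
      · simp only [Finset.mem_filter, Finset.mem_insert, Finset.mem_erase, Finset.mem_union, hg, hi, if_false,
          Finset.notMem_empty, false_or]
        tauto
  unfold MG.dg MG.deg
  rw [h1, Finset.card_union_of_disjoint, Finset.card_union_of_disjoint]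
  · by_cases hi : G.inc e v
    · simp [hi]
    · simp [hi]
  · rw [Finset.disjoint_left]
    intro g hg hg'
    simp only [Finset.mem_filter] at hg hg'
    exact hab (hg.1.2.symm.trans hg'.1.2)
  · rw [Finset.disjoint_left]
    intro g hg hg'
    have h2 : g = e := by
      by_cases hi : G.inc e v
      · simpa [hi] using hg
      · simp [hi] at hg
    simp [h2] at hg'

private theorem kempe_ne [Fintype V] [Fintype E] {k d : ℕ} {A : Finset E} {e : E} {c : E → Fin k} {x y : V}
    (h : G.St d A e c x y) {a b : Fin k} (ha : a ∈ G.miss d c (A.erase e) x) (hb : b ∈ G.miss d c (A.erase e) y) :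
    a ≠ b := by
  rintro rfl
  apply h.not
  refine ⟨fun g => if g = e then a else c g, fun i v => ?_⟩
  have hax : G.dg c (A.erase e) a x < d := by simpa [MG.miss] using ha
  have hay : G.dg c (A.erase e) a y < d := by simpa [MG.miss] using hb
  have hv := h.val i v
  unfold MG.dg MG.deg at *
  by_cases hi : i = a
  · subst hi
    have h1 : (A.filter (fun g => (if g = e then i else c g) = i)).filter (fun g => G.inc g v) ⊆
        (if G.inc e v then {e} else ∅) ∪ (((A.erase e).filter (fun g => c g = i)).filter (fun g => G.inc g v)) := by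
      intro g hg
      simp only [Finset.mem_filter] at hg
      by_cases hge : g = e
      · subst hge
        rw [if_pos hg.2]
        simp
      · rw [if_neg hge] at hg
        simp only [Finset.mem_union, Finset.mem_filter, Finset.mem_erase]
        exact Or.inr ⟨⟨⟨hge, hg.1.1⟩, hg.1.2⟩, hg.2⟩
    refine (Finset.card_le_card h1).trans ((Finset.card_union_le _ _).trans ?_)
    by_cases hinc : G.inc e v
    · rw [if_pos hinc, Finset.card_singleton]
      rcases (kempe_inc h.jn).1 hinc with rfl | rfl
      · omega
      · omega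
    · rw [if_neg hinc, Finset.card_empty]
      omega
  · refine (Finset.card_le_card ?_).trans hv
    intro g hg
    simp only [Finset.mem_filter, Finset.mem_erase] at hg ⊢
    by_cases hge : g = e
    · rw [if_pos hge] at hg
      exact absurd hg.1.2.symm hi
    · rw [if_neg hge] at hg
      exact ⟨⟨⟨hge, hg.1.1⟩, hg.1.2⟩, hg.2⟩

theorem kempe [Fintype V] [Fintype E] {k d : ℕ} {A : Finset E} {e : E} {c : E → Fin k} {x y : V}
    (h : G.St d A e c x y) {a b : Fin k} (ha : a ∈ G.miss d c (A.erase e) x) (hb : b ∈ G.miss d c (A.erase e) y) :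
    a ≠ b ∧ ∀ v, G.Reach (kmp A e c a b) x v → G.deg (kmp A e c a b) v = 2 * d := by
  have hab := kempe_ne h ha hb
  refine ⟨hab, ?_⟩
  have hax : G.dg c (A.erase e) a x < d := by simpa [MG.miss] using ha
  have hby : G.dg c (A.erase e) b y < d := by simpa [MG.miss] using hb
  set H := kmp A e c a b with hH
  have hle : ∀ w, G.deg H w ≤ 2 * d := by
    intro w
    rw [hH, kempe_deg hab]
    have h1 := h.val a w
    have h2 := h.val b w
    by_cases hi : G.inc e w
    · rw [if_pos hi]
      rcases (kempe_inc h.jn).1 hi with rfl | rfl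
      · omega
      · omega
    · rw [if_neg hi]
      omega
  intro v hv
  by_contra hne
  have hlt : G.deg H v < 2 * d := lt_of_le_of_ne (hle v) hne
  -- the class of `x`
  set H' := H.filter (fun g => G.Reach H x (G.s g)) with hH'
  have hends : ∀ g ∈ H, ∀ w, G.inc g w → G.Reach H x w → G.Reach H x (G.s g) ∧ G.Reach H x (G.t g) := by
    intro g hg w hw hr
    rcases hw with hw | hw
    · rw [hw]
      exact ⟨hr, hr.tail ⟨g, hg, Or.inl ⟨hw, rfl⟩⟩⟩
    · rw [hw]
      exact ⟨hr.tail ⟨g, hg, Or.inr ⟨rfl, hw⟩⟩, hr⟩
  have hin : ∀ g ∈ H, ∀ w, G.inc g w → G.Reach H x w → g ∈ H' := by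
    intro g hg w hw hr
    rw [hH', Finset.mem_filter]
    exact ⟨hg, (hends g hg w hw hr).1⟩
  have hout : ∀ g ∈ H', ∀ w, G.inc g w → G.Reach H x w := by
    intro g hg w hw
    rw [hH', Finset.mem_filter] at hg
    have h1 := hends g hg.1 (G.s g) (Or.inl rfl) hg.2
    rcases hw with hw | hw
    · rw [← hw]
      exact h1.1
    · rw [← hw]
      exact h1.2
  have hR : ∀ w, G.Reach H x w → G.Reach H' x w := by
    intro w hw
    induction hw with
    | refl => exact Relation.ReflTransGen.refl
    | tail h1 h2 ih =>
      obtain ⟨g, hg, hj⟩ := h2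
      refine ih.tail ⟨g, ?_, hj⟩
      exact hin g hg _ ((kempe_inc hj).2 (Or.inl rfl)) h1
  have hA : ∀ g ∈ H', G.Reach H' v (G.s g) := by
    intro g hg
    exact (kempe_symm (hR v hv)).trans (hR _ (hout g hg _ (Or.inl rfl)))
  obtain ⟨f, hf1, hf2⟩ := balance (G := G) H' v hA
  have heH : e ∈ H := by
    rw [hH]
    unfold kmp
    exact Finset.mem_insert_self _ _
  have heH' : e ∈ H' := hin e heH x ((kempe_inc h.jn).2 (Or.inl rfl)) Relation.ReflTransGen.refl
  have hHA : H' ⊆ A := by
    intro g hg
    rw [hH', Finset.mem_filter, hH] at hg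
    have h1 := hg.1
    unfold kmp at h1
    rw [Finset.mem_insert] at h1
    rcases h1 with rfl | h1
    · exact h.mem
    · exact Finset.mem_of_mem_erase (Finset.mem_filter.1 h1).1
  -- degrees of the reachable vertices
  have hdeg : ∀ w, G.Reach H x w → G.deg H' w ≤ 2 * d ∧ (w = v → G.deg H' w + 1 ≤ 2 * d) := by
    intro w hw
    have h1 : G.deg H' w = G.deg H w := by
      unfold MG.deg
      congr 1
      ext g
      simp only [Finset.mem_filter]
      constructor
      · rintro ⟨h2, h3⟩
        exact ⟨(Finset.mem_filter.1 (hH' ▸ h2)).1, h3⟩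
      · rintro ⟨h2, h3⟩
        exact ⟨hin g h2 w h3 hw, h3⟩
    rw [h1]
    refine ⟨hle w, ?_⟩
    rintro rfl
    exact hlt
  have hbal : ∀ w, G.Reach H x w → G.deg (H'.filter (fun g => f g = true)) w ≤ d ∧
      G.deg (H'.filter (fun g => f g = false)) w ≤ d := by
    intro w hw
    have h1 := balance_card (G := G) H' f w
    have h2 := hdeg w hw
    by_cases hwv : w = v
    · subst hwv
      have h3 := h2.2 rfl
      have h4 := abs_le.1 hf2
      have h5 : (G.deg H' w : ℤ) + 1 ≤ 2 * d := by exact_mod_cast h3
      constructor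
      · have : (G.deg (H'.filter (fun g => f g = true)) w : ℤ) ≤ d := by linarith [h1.1, h4.2]
        exact_mod_cast this
      · have : (G.deg (H'.filter (fun g => f g = false)) w : ℤ) ≤ d := by linarith [h1.2, h4.1]
        exact_mod_cast this
    · have h4 := abs_le.1 (hf1 w hwv)
      have h5 : (G.deg H' w : ℤ) ≤ 2 * d := by exact_mod_cast h2.1
      constructor
      · have : (G.deg (H'.filter (fun g => f g = true)) w : ℤ) ≤ d := by linarith [h1.1, h4.2]
        exact_mod_cast this
      · have : (G.deg (H'.filter (fun g => f g = false)) w : ℤ) ≤ d := by linarith [h1.2, h4.1]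
        exact_mod_cast this
  apply h.not
  refine ⟨fun g => if g ∈ H' then (if f g = true then a else b) else c g, fun i w => ?_⟩
  have hmemH : ∀ g ∈ A, g ≠ e → (c g = a ∨ c g = b) → g ∈ H := by
    intro g hg hge hc
    rw [hH]
    unfold kmp
    rw [Finset.mem_insert, Finset.mem_filter, Finset.mem_erase]
    exact Or.inr ⟨⟨hge, hg⟩, hc⟩
  have hvi := h.val i w
  by_cases hw : G.Reach H x w
  · by_cases hia : i = a
    · subst hia
      refine (Finset.card_le_card ?_).trans (hbal w hw).1
      intro g hg
      simp only [Finset.mem_filter] at hg ⊢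
      by_cases hgH : g ∈ H'
      · rw [if_pos hgH] at hg
        by_cases hfg : f g = true
        · exact ⟨⟨hgH, hfg⟩, hg.2⟩
        · rw [if_neg hfg] at hg
          exact absurd hg.1.2.symm hab
      · rw [if_neg hgH] at hg
        have hge : g ≠ e := by
          rintro rfl
          exact hgH heH'
        exact absurd (hin g (hmemH g hg.1.1 hge (Or.inl hg.1.2)) w hg.2 hw) hgH
    · by_cases hib : i = b
      · subst hib
        refine (Finset.card_le_card ?_).trans (hbal w hw).2
        intro g hg
        simp only [Finset.mem_filter] at hg ⊢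
        by_cases hgH : g ∈ H'
        · rw [if_pos hgH] at hg
          by_cases hfg : f g = true
          · rw [if_pos hfg] at hg
            exact absurd hg.1.2 hab
          · exact ⟨⟨hgH, by simpa using hfg⟩, hg.2⟩
        · rw [if_neg hgH] at hg
          have hge : g ≠ e := by
            rintro rfl
            exact hgH heH'
          exact absurd (hin g (hmemH g hg.1.1 hge (Or.inr hg.1.2)) w hg.2 hw) hgH
      · refine le_trans (Finset.card_le_card ?_) hvi
        intro g hg
        simp only [Finset.mem_filter, Finset.mem_erase] at hg ⊢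
        by_cases hgH : g ∈ H'
        · rw [if_pos hgH] at hg
          by_cases hfg : f g = true
          · rw [if_pos hfg] at hg
            exact absurd hg.1.2.symm hia
          · rw [if_neg hfg] at hg
            exact absurd hg.1.2.symm hib
        · rw [if_neg hgH] at hg
          have hge : g ≠ e := by
            rintro rfl
            exact hgH heH'
          exact ⟨⟨⟨hge, hg.1.1⟩, hg.1.2⟩, hg.2⟩
  · refine le_trans (Finset.card_le_card ?_) hvi
    intro g hg
    simp only [Finset.mem_filter, Finset.mem_erase] at hg ⊢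
    by_cases hgH : g ∈ H'
    · exact absurd (hout g hgH w hg.2) hw
    · rw [if_neg hgH] at hg
      have hge : g ≠ e := by
        rintro rfl
        exact hgH heH'
      exact ⟨⟨⟨hge, hg.1.1⟩, hg.1.2⟩, hg.2⟩

/-- residual numbers at `x` and `y` -/
theorem kempe_xy [Fintype V] [Fintype E] {k d : ℕ} {A : Finset E} {e : E} {c : E → Fin k} {x y : V}
    (h : G.St d A e c x y) {a b : Fin k} (ha : a ∈ G.miss d c (A.erase e) x) (hb : b ∈ G.miss d c (A.erase e) y) :
    G.dg c (A.erase e) a x + 1 = d ∧ G.dg c (A.erase e) b x = d ∧
      G.dg c (A.erase e) b y + 1 = d ∧ G.dg c (A.erase e) a y = d := by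
  obtain ⟨hab, hk⟩ := kempe h ha hb
  have hax : G.dg c (A.erase e) a x < d := by simpa [MG.miss] using ha
  have hby : G.dg c (A.erase e) b y < d := by simpa [MG.miss] using hb
  have h1 := hk x Relation.ReflTransGen.refl
  have h2 := hk y (Relation.ReflTransGen.single ⟨e, by unfold kmp; exact Finset.mem_insert_self _ _, h.jn⟩)
  rw [kempe_deg hab, if_pos ((kempe_inc h.jn).2 (Or.inl rfl))] at h1
  rw [kempe_deg hab, if_pos ((kempe_inc h.jn).2 (Or.inr rfl))] at h2
  have h3 := h.val a x
  have h4 := h.val b x
  have h5 := h.val a y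
  have h6 := h.val b y
  omega

/-- other vertices of the class -/
theorem kempe_other [Fintype V] [Fintype E] {k d : ℕ} {A : Finset E} {e : E} {c : E → Fin k} {x y : V}
    (h : G.St d A e c x y) {a b : Fin k} (ha : a ∈ G.miss d c (A.erase e) x) (hb : b ∈ G.miss d c (A.erase e) y)
    {v : V} (hx : v ≠ x) (hy : v ≠ y) (hv : G.Reach (kmp A e c a b) x v) :
    G.dg c (A.erase e) a v = d ∧ G.dg c (A.erase e) b v = d := by
  obtain ⟨hab, hk⟩ := kempe h ha hb
  have h1 := hk v hv
  rw [kempe_deg hab, if_neg (fun hi => by
    rcases (kempe_inc h.jn).1 hi with h2 | h2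
    · exact hx h2
    · exact hy h2)] at h1
  have h3 := h.val a v
  have h4 := h.val b v
  omega

end Pool.Agent.H77.Df
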