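import Pool.Agent.H77.Df.Kempe

/-!
# Swap and shift

`swap`: `C` is a set of vertices such that no edge of `B = A without e` coloured `a` or `b` leaves `C`; exchange `a` and `b` on
the edges with an end in `C`.  `shift`: `f ∈ B` joins `y` and `z`, `c f` is missing at `x`: colour `e` with `c f` and uncolour `f`.
-/

set_option autoImplicit false

open Finset
open scoped Classical

namespace Pool.Agent.H77.Df

variable {V E : Type} {G : MG V E}

/-- exchange of the colours `a` and `b` on the edges with an end in `C` -/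
noncomputable def swp (G : MG V E) {k : ℕ} (c : E → Fin k) (C : Set V) (a b : Fin k) (g : E) : Fin k :=
  if G.s g ∈ C ∨ G.t g ∈ C then (if c g = a then b else if c g = b then a else c g) else c g

private theorem moves_inc {e : E} {u w : V} (h : G.joins e u w) (v : V) :
    G.inc e v ↔ v = u ∨ v = w := by
  unfold MG.inc
  rcases h with ⟨h1, h2⟩ | ⟨h1, h2⟩
  · rw [h1, h2, eq_comm (a := u), eq_comm (a := w)]
  · rw [h1, h2, eq_comm (a := u), eq_comm (a := w), or_comm]

private theorem moves_ne {e : E} {u w : V} (h : G.joins e u w) : u ≠ w := by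
  rcases h with ⟨h1, h2⟩ | ⟨h1, h2⟩
  · rw [← h1, ← h2]
    exact G.ne e
  · rw [← h1, ← h2]
    exact (G.ne e).symm

private theorem moves_dg_congr {k k' : ℕ} {B B' : Finset E} {c : E → Fin k} {c' : E → Fin k'}
    {q : Fin k} {q' : Fin k'} {v : V}
    (h : ∀ g, G.inc g v → ((g ∈ B ∧ c g = q) ↔ (g ∈ B' ∧ c' g = q'))) :
    G.dg c B q v = G.dg c' B' q' v := by
  unfold MG.dg MG.deg
  congr 1
  ext g
  rw [mem_filter, mem_filter, mem_filter, mem_filter]
  constructor
  · rintro ⟨h1, h2⟩
    exact ⟨(h g h2).1 h1, h2⟩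
  · rintro ⟨h1, h2⟩
    exact ⟨(h g h2).2 h1, h2⟩

theorem swap_dg {k : ℕ} {B : Finset E} {c : E → Fin k} {C : Set V} {a b : Fin k} (hab : a ≠ b)
    (hC : ∀ g ∈ B, c g = a ∨ c g = b → (G.s g ∈ C ↔ G.t g ∈ C)) (v : V) :
    (v ∈ C → G.dg (swp G c C a b) B a v = G.dg c B b v ∧ G.dg (swp G c C a b) B b v = G.dg c B a v) ∧
      (v ∉ C → ∀ q, G.dg (swp G c C a b) B q v = G.dg c B q v) ∧
      (∀ q, q ≠ a → q ≠ b → G.dg (swp G c C a b) B q v = G.dg c B q v) := by
  refine ⟨fun hv => ⟨?_, ?_⟩, fun hv q => ?_, fun q hqa hqb => ?_⟩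
  · apply moves_dg_congr
    intro g hg
    have h1 : G.s g ∈ C ∨ G.t g ∈ C := by
      rcases hg with hg | hg
      · left; rw [hg]; exact hv
      · right; rw [hg]; exact hv
    unfold swp
    rw [if_pos h1]
    by_cases h2 : c g = a
    · rw [if_pos h2, h2]
      constructor
      · rintro ⟨_, h3⟩
        exact absurd h3.symm hab
      · rintro ⟨_, h3⟩
        exact absurd h3 hab
    · rw [if_neg h2]
      by_cases h3 : c g = b
      · rw [if_pos h3]
        tauto
      · rw [if_neg h3]
        tauto
  · apply moves_dg_congr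
    intro g hg
    have h1 : G.s g ∈ C ∨ G.t g ∈ C := by
      rcases hg with hg | hg
      · left; rw [hg]; exact hv
      · right; rw [hg]; exact hv
    unfold swp
    rw [if_pos h1]
    by_cases h2 : c g = a
    · rw [if_pos h2]
      tauto
    · rw [if_neg h2]
      by_cases h3 : c g = b
      · rw [if_pos h3, h3]
        constructor
        · rintro ⟨_, h4⟩
          exact absurd h4 hab
        · rintro ⟨_, h4⟩
          exact absurd h4.symm hab
      · rw [if_neg h3]
        tauto
  · apply moves_dg_congr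
    intro g hg
    unfold swp
    by_cases h1 : G.s g ∈ C ∨ G.t g ∈ C
    · rw [if_pos h1]
      by_cases hB : g ∈ B
      · have h2 : ¬ (c g = a ∨ c g = b) := by
          intro h3
          have h4 := hC g hB h3
          have h5 : G.s g ∈ C ∧ G.t g ∈ C := by
            rcases h1 with h1 | h1
            · exact ⟨h1, h4.1 h1⟩
            · exact ⟨h4.2 h1, h1⟩
          rcases hg with hg | hg
          · rw [hg] at h5; exact hv h5.1
          · rw [hg] at h5; exact hv h5.2
        rw [if_neg (fun h => h2 (Or.inl h)), if_neg (fun h => h2 (Or.inr h))]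
      · exact ⟨fun h => absurd h.1 hB, fun h => absurd h.1 hB⟩
    · rw [if_neg h1]
  · apply moves_dg_congr
    intro g hg
    unfold swp
    by_cases h1 : G.s g ∈ C ∨ G.t g ∈ C
    · rw [if_pos h1]
      by_cases h2 : c g = a
      · rw [if_pos h2, h2]
        constructor
        · rintro ⟨_, h3⟩
          exact absurd h3.symm hqb
        · rintro ⟨_, h3⟩
          exact absurd h3.symm hqa
      · rw [if_neg h2]
        by_cases h3 : c g = b
        · rw [if_pos h3, h3]
          constructor
          · rintro ⟨_, h4⟩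
            exact absurd h4.symm hqa
          · rintro ⟨_, h4⟩
            exact absurd h4.symm hqb
        · rw [if_neg h3]
    · rw [if_neg h1]

theorem swap_st {k d : ℕ} {A : Finset E} {e : E} {c : E → Fin k} {x y : V} (h : G.St d A e c x y) {C : Set V}
    {a b : Fin k} (hab : a ≠ b) (hC : ∀ g ∈ A.erase e, c g = a ∨ c g = b → (G.s g ∈ C ↔ G.t g ∈ C)) :
    G.St d A e (swp G c C a b) x y := by
  refine ⟨h.not, h.mem, h.jn, ?_⟩
  intro q v
  obtain ⟨h1, h2, h3⟩ := swap_dg hab hC v
  by_cases hv : v ∈ C
  · by_cases hqa : q = a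
    · rw [hqa, (h1 hv).1]
      exact h.val b v
    · by_cases hqb : q = b
      · rw [hqb, (h1 hv).2]
        exact h.val a v
      · rw [h3 q hqa hqb]
        exact h.val q v
  · rw [h2 hv q]
    exact h.val q v

private theorem moves_iff {k : ℕ} {A : Finset E} {e f : E} {c : E → Fin k} (hf : f ∈ A.erase e)
    (g : E) (q : Fin k) (hq : q ≠ c f) :
    ((g ∈ A.erase f ∧ Function.update c e (c f) g = q) ↔ (g ∈ A.erase e ∧ c g = q)) := by
  rw [mem_erase] at hf
  by_cases hge : g = e
  · subst hge
    rw [Function.update_self]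
    constructor
    · rintro ⟨_, h2⟩
      exact absurd h2.symm hq
    · rintro ⟨h1, _⟩
      exact absurd rfl (mem_erase.1 h1).1
  · rw [Function.update_of_ne hge, mem_erase, mem_erase]
    constructor
    · rintro ⟨⟨_, h1⟩, h2⟩
      exact ⟨⟨hge, h1⟩, h2⟩
    · rintro ⟨⟨_, h1⟩, h2⟩
      refine ⟨⟨?_, h1⟩, h2⟩
      rintro rfl
      exact hq h2.symm

private theorem moves_card {k : ℕ} {A : Finset E} {e f : E} {c : E → Fin k} (he : e ∈ A)
    (hf : f ∈ A.erase e) (v : V) :
    G.dg (Function.update c e (c f)) (A.erase f) (c f) v + (if G.inc f v then 1 else 0) =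
      G.dg c (A.erase e) (c f) v + (if G.inc e v then 1 else 0) := by
  have hf' := mem_erase.1 hf
  unfold MG.dg MG.deg
  have hS : ∀ g, g ∈ ((A.erase f).filter (fun g => Function.update c e (c f) g = c f)).filter
      (fun g => G.inc g v) ↔ (g ∈ A ∧ g ≠ f ∧ Function.update c e (c f) g = c f ∧ G.inc g v) := by
    intro g
    rw [mem_filter, mem_filter, mem_erase]
    tauto
  have hT : ∀ g, g ∈ ((A.erase e).filter (fun g => c g = c f)).filter
      (fun g => G.inc g v) ↔ (g ∈ A ∧ g ≠ e ∧ c g = c f ∧ G.inc g v) := by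
    intro g
    rw [mem_filter, mem_filter, mem_erase]
    tauto
  have h1 : (((A.erase f).filter (fun g => Function.update c e (c f) g = c f)).filter
      (fun g => G.inc g v)).erase e = (((A.erase e).filter (fun g => c g = c f)).filter
      (fun g => G.inc g v)).erase f := by
    ext g
    rw [mem_erase, mem_erase, hS, hT]
    by_cases hge : g = e
    · subst hge
      tauto
    · rw [Function.update_of_ne hge]
      tauto
  have h2 : e ∈ ((A.erase f).filter (fun g => Function.update c e (c f) g = c f)).filter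
      (fun g => G.inc g v) ↔ G.inc e v := by
    rw [hS, Function.update_self]
    exact ⟨fun h => h.2.2.2, fun h => ⟨he, fun h' => hf'.1 h'.symm, rfl, h⟩⟩
  have h3 : f ∈ ((A.erase e).filter (fun g => c g = c f)).filter
      (fun g => G.inc g v) ↔ G.inc f v := by
    rw [hT]
    exact ⟨fun h => h.2.2.2, fun h => ⟨hf'.2, hf'.1, rfl, h⟩⟩
  have h4 := congrArg Finset.card h1
  rw [card_erase_eq_ite, card_erase_eq_ite, if_congr h2 rfl rfl, if_congr h3 rfl rfl] at h4
  by_cases i1 : G.inc e v <;> by_cases i2 : G.inc f v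
  · have p1 := card_pos.2 ⟨e, h2.2 i1⟩
    have p2 := card_pos.2 ⟨f, h3.2 i2⟩
    rw [if_pos i1, if_pos i2] at h4
    rw [if_pos i1, if_pos i2]
    omega
  · have p1 := card_pos.2 ⟨e, h2.2 i1⟩
    rw [if_pos i1, if_neg i2] at h4
    rw [if_pos i1, if_neg i2]
    omega
  · have p2 := card_pos.2 ⟨f, h3.2 i2⟩
    rw [if_neg i1, if_pos i2] at h4
    rw [if_neg i1, if_pos i2]
    omega
  · rw [if_neg i1, if_neg i2] at h4
    rw [if_neg i1, if_neg i2]
    omega

theorem shift_st {k d : ℕ} {A : Finset E} {e f : E} {c : E → Fin k} {x y z : V} (h : G.St d A e c x y)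
    (hf : f ∈ A.erase e) (hj : G.joins f y z) (hm : c f ∈ G.miss d c (A.erase e) x) :
    G.St d A f (Function.update c e (c f)) z y := by
  refine ⟨h.not, (mem_erase.1 hf).2, ?_, ?_⟩
  · rcases hj with ⟨h1, h2⟩ | ⟨h1, h2⟩
    · exact Or.inr ⟨h1, h2⟩
    · exact Or.inl ⟨h1, h2⟩
  · intro q v
    by_cases hq : q = c f
    · rw [hq]
      have h1 := moves_card (G := G) (c := c) h.mem hf v
      have h2 := h.val (c f) v
      by_cases hv : G.inc e v
      · rw [if_pos hv] at h1
        rcases (moves_inc h.jn v).1 hv with rfl | rfl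
        · have h3 : G.dg c (A.erase e) (c f) v < d := (mem_filter.1 hm).2
          split_ifs at h1 <;> omega
        · have h3 : G.inc f v := (moves_inc hj v).2 (Or.inl rfl)
          rw [if_pos h3] at h1
          omega
      · rw [if_neg hv] at h1
        split_ifs at h1 <;> omega
    · rw [moves_dg_congr (fun g _ => moves_iff hf g q hq)]
      exact h.val q v

theorem shift_dg {k d : ℕ} {A : Finset E} {e f : E} {c : E → Fin k} {x y z : V} (h : G.St d A e c x y)
    (hf : f ∈ A.erase e) (hj : G.joins f y z) :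
    (∀ q v, q ≠ c f → G.dg (Function.update c e (c f)) (A.erase f) q v = G.dg c (A.erase e) q v) ∧
      (∀ q v, v ≠ x → v ≠ z → G.dg (Function.update c e (c f)) (A.erase f) q v = G.dg c (A.erase e) q v) ∧
      (∀ q, x ≠ z → G.dg (Function.update c e (c f)) (A.erase f) q z ≤ G.dg c (A.erase e) q z) ∧
      (∀ g q, q ≠ c f → ((g ∈ A.erase f ∧ Function.update c e (c f) g = q) ↔ (g ∈ A.erase e ∧ c g = q))) := by
  have h1 : ∀ q v, q ≠ c f →
      G.dg (Function.update c e (c f)) (A.erase f) q v = G.dg c (A.erase e) q v :=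
    fun q v hq => moves_dg_congr (fun g _ => moves_iff hf g q hq)
  refine ⟨h1, ?_, ?_, fun g q hq => moves_iff hf g q hq⟩
  · intro q v hvx hvz
    by_cases hq : q = c f
    · rw [hq]
      have h2 := moves_card (G := G) (c := c) h.mem hf v
      have h3 : G.inc e v ↔ G.inc f v := by
        rw [moves_inc h.jn v, moves_inc hj v]
        tauto
      by_cases hv : G.inc e v
      · rw [if_pos hv, if_pos (h3.1 hv)] at h2
        omega
      · rw [if_neg hv, if_neg (fun h' => hv (h3.2 h'))] at h2
        omega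
    · exact h1 q v hq
  · intro q hxz
    by_cases hq : q = c f
    · rw [hq]
      have h2 := moves_card (G := G) (c := c) h.mem hf z
      have h3 : ¬ G.inc e z := by
        rw [moves_inc h.jn z]
        rintro (h' | h')
        · exact hxz h'.symm
        · exact moves_ne hj h'.symm
      rw [if_neg h3] at h2
      omega
    · exact (h1 q z hq).le

end Pool.Agent.H77.Df
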