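import Pool.Agent.H77.Df.Trail

/-!
# Minimal square sum

`Phi A f = ∑ v, (exc A f v)^2`.  Let `f` be minimal and `2 ≤ |exc A f u|`; by symmetry (`f` and its negation have the same
`Phi`) let `exc A f u ≥ 2`.  Take a longest alternating trail `L` starting at `u` with an edge of colour `true`
(`exc > 0` gives one), end `w`, last colour `b'`.  Unused edges at `w` have colour `b'` (`tr_max_end`).
(i) `w ≠ u`: then `sgn b' * exc w ≥ 1` (`tr_sum`), and exchanging along `L` changes `Phi` by
`(4 - 4 exc u) + (4 - 4 |exc w|) < 0`.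
(ii) `w = u`, `b' = false`: then `exc u ≤ 0`, contradiction.
(iii) `w = u`, `b' = true`: exchanging gives `16 - 8 exc u ≥ 0`, so `exc u = 2`, and `exc u = 2 + (number of unused edges at
u)`, so all edges of `A` at `u` are in `L`.
Now let `e ∈ A` join `u` and `w`.  Cut `L` at `e` (`tr_split`).  If `e` is traversed from `u` to `w`: exchanging along
`L1 ++ [e]` changes `Phi` by `- 4 sgn (f e) exc w` and along `L2` by `+ 4 sgn (f e) exc w`; if it is traversed from `w` to
`u`: `L1` gives `+ 4 sgn (f e) exc w`, `e :: L2` gives `- 4 sgn (f e) exc w`.  So `exc w = 0`, and the exchange along the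
first part is the required new minimal colouring.
-/

set_option autoImplicit false

open Finset
open scoped Classical

namespace Pool.Agent.H77.Df

variable {V E : Type} {G : MG V E}

/-- square sum of the excesses -/
noncomputable def MG.Phi [Fintype V] (G : MG V E) (A : Finset E) (f : E → Bool) : ℤ := ∑ v, (G.exc A f v) ^ 2

theorem phi_min [Fintype V] [Fintype E] (A : Finset E) : ∃ f : E → Bool, ∀ g : E → Bool, G.Phi A f ≤ G.Phi A g :=
  Finite.exists_min (fun f : E → Bool => G.Phi A f)

theorem phi_sgn_sq (b : Bool) : sgn b * sgn b = 1 := by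
  cases b <;> simp [sgn]

theorem phi_sgn_not (b : Bool) : sgn (!b) = -sgn b := by
  cases b <;> simp [sgn]

theorem phi_sgn_abs (b : Bool) : |2 * sgn b| = 2 := by
  cases b <;> simp [sgn]

/-- change of `Phi` when the excess changes by `a` at `u` and by `b` at `v ≠ u` -/
theorem phi_change_two [Fintype V] {A : Finset E} {f g : E → Bool} {u v : V} (huv : u ≠ v) {a b : ℤ}
    (hu : G.exc A g u = G.exc A f u + a) (hv : G.exc A g v = G.exc A f v + b)
    (ho : ∀ x, x ≠ u → x ≠ v → G.exc A g x = G.exc A f x) :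
    G.Phi A g = G.Phi A f + (2 * a * G.exc A f u + a ^ 2) + (2 * b * G.exc A f v + b ^ 2) := by
  unfold MG.Phi
  rw [← Finset.add_sum_erase Finset.univ _ (Finset.mem_univ u),
    ← Finset.add_sum_erase (Finset.univ.erase u) _ (Finset.mem_erase.2 ⟨huv.symm, Finset.mem_univ v⟩),
    ← Finset.add_sum_erase Finset.univ (fun x => (G.exc A f x) ^ 2) (Finset.mem_univ u),
    ← Finset.add_sum_erase (Finset.univ.erase u) (fun x => (G.exc A f x) ^ 2)
      (Finset.mem_erase.2 ⟨huv.symm, Finset.mem_univ v⟩)]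
  have h : ∑ x ∈ (Finset.univ.erase u).erase v, (G.exc A g x) ^ 2 =
      ∑ x ∈ (Finset.univ.erase u).erase v, (G.exc A f x) ^ 2 := by
    refine Finset.sum_congr rfl fun x hx => ?_
    rw [Finset.mem_erase, Finset.mem_erase] at hx
    rw [ho x hx.2.1 hx.1]
  rw [h, hu, hv]
  ring

theorem phi_change_one [Fintype V] {A : Finset E} {f g : E → Bool} {u : V} {a : ℤ}
    (hu : G.exc A g u = G.exc A f u + a) (ho : ∀ x, x ≠ u → G.exc A g x = G.exc A f x) :
    G.Phi A g = G.Phi A f + (2 * a * G.exc A f u + a ^ 2) := by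
  unfold MG.Phi
  rw [← Finset.add_sum_erase Finset.univ _ (Finset.mem_univ u),
    ← Finset.add_sum_erase Finset.univ (fun x => (G.exc A f x) ^ 2) (Finset.mem_univ u)]
  have h : ∑ x ∈ Finset.univ.erase u, (G.exc A g x) ^ 2 = ∑ x ∈ Finset.univ.erase u, (G.exc A f x) ^ 2 := by
    refine Finset.sum_congr rfl fun x hx => ?_
    rw [ho x (Finset.mem_erase.1 hx).1]
  rw [h, hu]
  ring

/-- exchange along an open trail -/
theorem phi_open [Fintype V] {A : Finset E} {f : E → Bool} {u v : V} {b b' : Bool} {L : List E}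
    (h : G.Tr A f u v b b' L) (huv : u ≠ v) :
    G.Phi A (flipL f L) = G.Phi A f + (4 - 4 * (sgn b * G.exc A f u)) + (4 - 4 * (sgn b' * G.exc A f v)) := by
  have hu : G.exc A (flipL f L) u = G.exc A f u + (-2 * sgn b) := by
    rw [exc_flip h u, if_pos rfl, if_neg huv]
    ring
  have hv : G.exc A (flipL f L) v = G.exc A f v + (-2 * sgn b') := by
    rw [exc_flip h v, if_neg huv.symm, if_pos rfl]
    ring
  have ho : ∀ x, x ≠ u → x ≠ v → G.exc A (flipL f L) x = G.exc A f x := by
    intro x hx hy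
    rw [exc_flip h x, if_neg hx, if_neg hy]
    ring
  rw [phi_change_two huv hu hv ho]
  have h1 := phi_sgn_sq b
  have h2 := phi_sgn_sq b'
  linear_combination 4 * h1 + 4 * h2

/-- sum of the signs over the edges at `v`: used and unused edges -/
theorem phi_exc_end {A : Finset E} {f : E → Bool} {u v : V} {b b' : Bool} {L : List E} (h : G.Tr A f u v b b' L)
    (hend : ∀ e ∈ A, G.inc e v → e ∉ L → f e = b') :
    G.exc A f v = ((if v = u then sgn b else 0) + sgn b') +
      (((A.filter (fun e => G.inc e v)).filter (fun e => e ∉ L)).card : ℤ) * sgn b' := by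
  have h1 := tr_sum h v
  rw [if_pos rfl] at h1
  rw [← h1]
  unfold MG.exc
  rw [← Finset.sum_filter_add_sum_filter_not (A.filter (fun e => G.inc e v)) (fun e => e ∈ L)]
  congr 1
  · refine Finset.sum_congr ?_ fun _ _ => rfl
    ext e
    rw [Finset.mem_filter, Finset.mem_filter, Finset.mem_filter, List.mem_toFinset]
    constructor
    · rintro ⟨⟨_, h3⟩, h4⟩
      exact ⟨h4, h3⟩
    · rintro ⟨h3, h4⟩
      exact ⟨⟨tr_sub h e h3, h4⟩, h3⟩
  · rw [Finset.sum_congr rfl (g := fun _ => sgn b')]
    · rw [Finset.sum_const, nsmul_eq_mul]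
    · intro e he
      rw [Finset.mem_filter, Finset.mem_filter] at he
      rw [hend e he.1.1 he.1.2 he.2]

theorem phi_exc_neg {A : Finset E} {f : E → Bool} (v : V) : G.exc A (fun e => !f e) v = -G.exc A f v := by
  unfold MG.exc
  rw [← Finset.sum_neg_distrib]
  exact Finset.sum_congr rfl fun e _ => phi_sgn_not (f e)

theorem phi_phi_neg [Fintype V] {A : Finset E} {f : E → Bool} : G.Phi A (fun e => !f e) = G.Phi A f := by
  unfold MG.Phi
  refine Finset.sum_congr rfl fun v _ => ?_
  rw [phi_exc_neg, neg_sq]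

theorem phi_inc_joins {e : E} {u : V} (h : G.inc e u) : ∃ w, G.joins e u w := by
  rcases h with h | h
  · exact ⟨G.t e, Or.inl ⟨h, rfl⟩⟩
  · exact ⟨G.s e, Or.inr ⟨rfl, h⟩⟩

theorem phi_joins_cases {e : E} {u w p q : V} (h1 : G.joins e u w) (h2 : G.joins e p q) :
    (p = u ∧ q = w) ∨ (p = w ∧ q = u) := by
  rcases h1 with ⟨a, b⟩ | ⟨a, b⟩ <;> rcases h2 with ⟨c, d⟩ | ⟨c, d⟩ <;> subst a <;> subst b <;> subst c <;> subst d
  · exact Or.inl ⟨rfl, rfl⟩
  · exact Or.inr ⟨rfl, rfl⟩
  · exact Or.inr ⟨rfl, rfl⟩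
  · exact Or.inl ⟨rfl, rfl⟩

/-- the last step: exchange along the trail from `u` to `w` -/
theorem phi_last [Fintype V] {A : Finset E} {f : E → Bool} (hf : ∀ g : E → Bool, G.Phi A f ≤ G.Phi A g)
    {u w : V} (huw : u ≠ w) (hu : G.exc A f u = 2) {c : Bool} {L1 L2 : List E}
    (h1 : G.Tr A f u w true c L1) (h2 : G.Tr A f w u (!c) true L2) :
    G.exc A f w = 0 ∧
      ∃ g : E → Bool, (∀ g' : E → Bool, G.Phi A g ≤ G.Phi A g') ∧ G.exc A g u = 0 ∧ |G.exc A g w| = 2 ∧
        ∀ v, v ≠ u → v ≠ w → G.exc A g v = G.exc A f v := by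
  have e1 := phi_open h1 huw
  have e2 := phi_open h2 huw.symm
  have m1 := hf (flipL f L1)
  have m2 := hf (flipL f L2)
  rw [hu, phi_sgn_not] at e2
  rw [hu] at e1
  have t : sgn true = 1 := rfl
  rw [t] at e1 e2
  have hz : sgn c * G.exc A f w = 0 := by
    rw [e1] at m1
    rw [e2] at m2
    nlinarith
  have hw : G.exc A f w = 0 := by
    rcases mul_eq_zero.1 hz with h | h
    · have := phi_sgn_sq c
      rw [h] at this
      simp at this
    · exact h
  refine ⟨hw, flipL f L1, ?_, ?_, ?_, ?_⟩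
  · intro g'
    have : G.Phi A (flipL f L1) = G.Phi A f := by
      rw [e1, hz]
      ring
    rw [this]
    exact hf g'
  · rw [exc_flip h1 u, if_pos rfl, if_neg huw, hu, t]
    norm_num
  · rw [exc_flip h1 w, if_neg huw.symm, if_pos rfl, hw]
    rw [zero_add, zero_sub, abs_neg]
    exact phi_sgn_abs c
  · intro v hv1 hv2
    rw [exc_flip h1 v, if_neg hv1, if_neg hv2]
    ring

theorem phi_pos [Fintype V] {A : Finset E} {f : E → Bool} (hf : ∀ g : E → Bool, G.Phi A f ≤ G.Phi A g)
    {u : V} (hu : 2 ≤ G.exc A f u) :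
    G.exc A f u = 2 ∧ ∀ e ∈ A, ∀ w : V, G.joins e u w → G.exc A f w = 0 ∧
      ∃ g : E → Bool, (∀ g' : E → Bool, G.Phi A g ≤ G.Phi A g') ∧ G.exc A g u = 0 ∧ |G.exc A g w| = 2 ∧
        ∀ v, v ≠ u → v ≠ w → G.exc A g v = G.exc A f v := by
  have hex : ∃ e0 ∈ A, G.inc e0 u ∧ f e0 = true := by
    by_contra hcon
    push Not at hcon
    have : G.exc A f u ≤ 0 := by
      unfold MG.exc
      refine Finset.sum_nonpos fun e he => ?_
      rw [Finset.mem_filter] at he
      have h3 : f e = false := by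
        have := hcon e he.1 he.2
        simpa using this
      rw [h3]
      simp [sgn]
    omega
  obtain ⟨e0, he0, hi0, hf0⟩ := hex
  obtain ⟨w0, hj0⟩ := phi_inc_joins hi0
  obtain ⟨v, b', L, htr, hmax⟩ := tr_max (f := f) he0 hj0
  rw [hf0] at htr hmax
  have hend := tr_max_end htr hmax
  have hexc := phi_exc_end htr hend
  have t : sgn true = 1 := rfl
  have ff : sgn false = -1 := rfl
  have hsq := phi_sgn_sq b'
  have hmin := hf (flipL f L)
  by_cases hv : v = u
  · subst hv
    rw [if_pos rfl, t] at hexc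
    cases b' with
    | false =>
      rw [ff] at hexc
      exfalso
      have : (0 : ℤ) ≤ (((A.filter (fun e => G.inc e v)).filter (fun e => e ∉ L)).card : ℤ) :=
        Int.natCast_nonneg _
      omega
    | true =>
      rw [t] at hexc
      have hv1 : G.exc A (flipL f L) v = G.exc A f v + (-4) := by
        rw [exc_flip htr v, if_pos rfl, t]
        ring
      have hv2 : ∀ x, x ≠ v → G.exc A (flipL f L) x = G.exc A f x := by
        intro x hx
        rw [exc_flip htr x, if_neg hx]
        ring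
      have e1 := phi_change_one hv1 hv2
      have hE : G.exc A f v = 2 := by
        rw [e1] at hmin
        have hle : G.exc A f v ≤ 2 := by linarith
        omega
      have hcard : ((A.filter (fun e => G.inc e v)).filter (fun e => e ∉ L)).card = 0 := by
        have : (((A.filter (fun e => G.inc e v)).filter (fun e => e ∉ L)).card : ℤ) = 0 := by linarith
        exact_mod_cast this
      refine ⟨hE, fun e he w hjw => ?_⟩
      have hvw : v ≠ w := joins_ne hjw
      have heL : e ∈ L := by
        by_contra hcon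
        have : e ∈ (A.filter (fun e => G.inc e v)).filter (fun e => e ∉ L) := by
          rw [Finset.mem_filter, Finset.mem_filter]
          exact ⟨⟨he, (joins_inc hjw).2 (Or.inl rfl)⟩, hcon⟩
        rw [Finset.card_eq_zero.1 hcard] at this
        exact absurd this (Finset.notMem_empty e)
      obtain ⟨p, q, L1, L2, _, hpq, k1, k2, k3, k4⟩ := tr_split htr heL
      rcases phi_joins_cases hjw hpq with ⟨rfl, rfl⟩ | ⟨rfl, rfl⟩
      · rcases k4 with ⟨_, h5, _⟩ | h5
        · exact absurd h5.symm hvw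
        · exact phi_last hf hvw hE k2 h5
      · rcases k1 with ⟨_, h5, _⟩ | h5
        · exact absurd h5.symm hvw
        · refine phi_last (L2 := e :: L2) hf hvw hE h5 ?_
          rw [Bool.not_not]
          exact k3
  · exfalso
    rw [if_neg hv] at hexc
    have e1 := phi_open htr (Ne.symm hv)
    rw [e1, t] at hmin
    have h5 : sgn b' * G.exc A f v =
        1 + (((A.filter (fun e => G.inc e v)).filter (fun e => e ∉ L)).card : ℤ) := by
      rw [hexc]
      linear_combination (1 + (((A.filter (fun e => G.inc e v)).filter (fun e => e ∉ L)).card : ℤ)) * hsq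
    have : (0 : ℤ) ≤ (((A.filter (fun e => G.inc e v)).filter (fun e => e ∉ L)).card : ℤ) :=
      Int.natCast_nonneg _
    linarith

theorem token_move [Fintype V] [Fintype E] {A : Finset E} {f : E → Bool} (hf : ∀ g : E → Bool, G.Phi A f ≤ G.Phi A g)
    {u : V} (hu : 2 ≤ |G.exc A f u|) :
    |G.exc A f u| = 2 ∧ ∀ e ∈ A, ∀ w : V, G.joins e u w → G.exc A f w = 0 ∧
      ∃ g : E → Bool, (∀ g' : E → Bool, G.Phi A g ≤ G.Phi A g') ∧ G.exc A g u = 0 ∧ |G.exc A g w| = 2 ∧
        ∀ v, v ≠ u → v ≠ w → G.exc A g v = G.exc A f v := by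
  rcases le_or_gt 0 (G.exc A f u) with h | h
  · rw [abs_of_nonneg h] at hu
    obtain ⟨h1, h2⟩ := phi_pos hf hu
    refine ⟨?_, h2⟩
    rw [h1]
    norm_num
  · rw [abs_of_neg h] at hu
    have hf' : ∀ g : E → Bool, G.Phi A (fun e => !f e) ≤ G.Phi A g := by
      intro g
      rw [phi_phi_neg]
      exact hf g
    have hu' : 2 ≤ G.exc A (fun e => !f e) u := by
      rw [phi_exc_neg]
      exact hu
    obtain ⟨h1, h2⟩ := phi_pos hf' hu'
    rw [phi_exc_neg] at h1
    refine ⟨?_, fun e he w hj => ?_⟩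
    · rw [abs_of_neg h, h1]
    · obtain ⟨h3, g, h4, h5, h6, h7⟩ := h2 e he w hj
      rw [phi_exc_neg] at h3
      refine ⟨by omega, fun e => !g e, ?_, ?_, ?_, ?_⟩
      · intro g'
        rw [phi_phi_neg]
        exact h4 g'
      · rw [phi_exc_neg, h5, neg_zero]
      · rw [phi_exc_neg, abs_neg]
        exact h6
      · intro v hv1 hv2
        rw [phi_exc_neg, h7 v hv1 hv2, phi_exc_neg, neg_neg]

end Pool.Agent.H77.Df
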