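import Pool.Agent.H77.Df.Moves

/-!
# Shift along a simple chain

Induction on `L` for all states.  `L = []`: nothing to do.  `L = (f, z1) :: L'`: the vertices `x`, `z1`, and those of `L'`
are different.  After `shift_st` (new uncoloured edge `f`, colouring `c' = update c e (c f)`, vertex `z1` in the role of `x`)
the rest `L'` is still a chain: its edges `g` join `y` with a vertex different from `z1` (so `g ≠ f`) and are different from
`e` (they lie in `A.erase e`), so `g ∈ A.erase f` and `c' g = c g`; `miss` of `z1` has only grown (`shift_dg`), `miss` of the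
other vertices of `L'` is unchanged (they are different from `x`, `z1`).  Apply the induction hypothesis and compose the
statements.  For the last statement (`dg` at the end `z` only decreases): if `L' = []` then `z = z1` (`shift_dg`); otherwise
`z ≠ x`, `z ≠ z1`.
-/

set_option autoImplicit false

open Finset
open scoped Classical

namespace Pool.Agent.H77.Df

variable {V E : Type} {G : MG V E}

private theorem shiftl_mem {k d : ℕ} {c : E → Fin k} {B : Finset E} {y x z : V} {L : List (E × V)}
    (h : G.Chn d c B y x L z) : ∀ r ∈ L, r.1 ∈ B := by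
  induction h with
  | nil x => intro r hr; simp at hr
  | cons x z1 z f L hf hj hm _ ih =>
    intro r hr
    rcases List.mem_cons.mp hr with h1 | h1
    · rw [h1]; exact hf
    · exact ih r h1

private theorem shiftl_end {k d : ℕ} {c : E → Fin k} {B : Finset E} {y x z : V} {L : List (E × V)}
    (h : G.Chn d c B y x L z) : z = x ∨ z ∈ L.map Prod.snd := by
  induction h with
  | nil x => left; rfl
  | cons x z1 z f L hf hj hm _ ih =>
    right
    rcases ih with h1 | h1
    · rw [h1]; simp
    · simp only [List.map_cons, List.mem_cons]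
      right
      exact h1

private theorem shiftl_joins_ne {f : E} {u v : V} (h : G.joins f u v) : u ≠ v := by
  intro huv
  subst huv
  rcases h with h | h
  · exact G.ne f (h.1.trans h.2.symm)
  · exact G.ne f (h.1.trans h.2.symm)

private theorem shiftl_joins_eq {f : E} {y u v : V} (h : G.joins f y u) (h' : G.joins f y v) :
    u = v := by
  have hne := shiftl_joins_ne h
  rcases h with ⟨h1, h2⟩ | ⟨h1, h2⟩
  · rcases h' with ⟨h3, h4⟩ | ⟨h3, h4⟩
    · exact h2.symm.trans h4
    · exact absurd (h4.symm.trans h2) hne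
  · rcases h' with ⟨h3, h4⟩ | ⟨h3, h4⟩
    · exact absurd (h3.symm.trans h1) hne
    · exact h1.symm.trans h3

private theorem shiftl_chn {k d : ℕ} {A : Finset E} {e f : E} {c : E → Fin k} {x y z1 : V}
    (h : G.St d A e c x y) (hf : f ∈ A.erase e) (hj : G.joins f y z1) (hx : x ≠ z1)
    {u z : V} {M : List (E × V)} (hM : G.Chn d c (A.erase e) y u M z) :
    (u = z1 ∨ (u ≠ x ∧ u ≠ z1)) → (∀ r ∈ M, r.2 ≠ x ∧ r.2 ≠ z1) →
      G.Chn d (Function.update c e (c f)) (A.erase f) y u M z := by
  obtain ⟨hs1, hs2, hs3, hs4⟩ := shift_dg h hf hj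
  induction hM with
  | nil x' => intro _ _; exact MG.Chn.nil x'
  | cons u w z g M hg hgj hgm _ ih =>
    intro hu hr
    have hw := hr (g, w) List.mem_cons_self
    have hgf : g ≠ f := by
      intro hgf
      subst hgf
      exact hw.2 (shiftl_joins_eq hgj hj)
    have hge : g ≠ e := (Finset.mem_erase.mp hg).1
    have hcg : Function.update c e (c f) g = c g := Function.update_of_ne hge _ _
    refine MG.Chn.cons u w z g M ?_ hgj ?_ (ih (Or.inr hw) (fun r hrM => hr r (List.mem_cons_of_mem _ hrM)))
    · exact Finset.mem_erase.mpr ⟨hgf, (Finset.mem_erase.mp hg).2⟩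
    · rw [hcg]
      unfold MG.miss at hgm ⊢
      rw [Finset.mem_filter] at hgm ⊢
      refine ⟨hgm.1, ?_⟩
      rcases hu with hu | hu
      · subst hu
        exact lt_of_le_of_lt (hs3 (c g) hx) hgm.2
      · rw [hs2 (c g) u hu.1 hu.2]
        exact hgm.2

theorem shift_list {k d : ℕ} {A : Finset E} (L : List (E × V)) :
    ∀ {e : E} {c : E → Fin k} {x y z : V}, G.St d A e c x y → G.Chn d c (A.erase e) y x L z →
      (x :: L.map Prod.snd).Nodup →
      ∃ (e' : E) (c' : E → Fin k), G.St d A e' c' z y ∧
        (∀ q, (∀ r ∈ L, c r.1 ≠ q) → ∀ g, ((g ∈ A.erase e' ∧ c' g = q) ↔ (g ∈ A.erase e ∧ c g = q))) ∧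
        (∀ q, G.dg c' (A.erase e') q y = G.dg c (A.erase e) q y) ∧
        (∀ q, G.dg c' (A.erase e') q z ≤ G.dg c (A.erase e) q z) := by
  induction L with
  | nil =>
    intro e c x y z h hc _
    cases hc
    exact ⟨e, c, h, fun q _ g => Iff.rfl, fun q => rfl, fun q => le_refl _⟩
  | cons r L ih =>
    intro e c x y z h hc hnd
    cases hc with
    | cons x z1 z f L hf hj hm hrest =>
      have hnd2 : (x :: z1 :: L.map Prod.snd).Nodup := by simpa using hnd
      have hx1 : x ∉ z1 :: L.map Prod.snd := (List.nodup_cons.mp hnd2).1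
      have hnd3 : (z1 :: L.map Prod.snd).Nodup := (List.nodup_cons.mp hnd2).2
      have hz1 : z1 ∉ L.map Prod.snd := (List.nodup_cons.mp hnd3).1
      have hxz : x ≠ z1 := fun h1 => hx1 (by rw [h1]; exact List.mem_cons_self)
      have hxL : x ∉ L.map Prod.snd := fun h1 => hx1 (List.mem_cons_of_mem _ h1)
      have hst := shift_st h hf hj hm
      obtain ⟨hs1, hs2, hs3, hs4⟩ := shift_dg h hf hj
      have hch : G.Chn d (Function.update c e (c f)) (A.erase f) y z1 L z := by
        refine shiftl_chn h hf hj hxz hrest (Or.inl rfl) ?_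
        intro r hr
        have hr2 : r.2 ∈ L.map Prod.snd := List.mem_map.mpr ⟨r, hr, rfl⟩
        exact ⟨fun h1 => hxL (h1 ▸ hr2), fun h1 => hz1 (h1 ▸ hr2)⟩
      obtain ⟨e', c', h1, h2, h3, h4⟩ := ih hst hch hnd3
      have hxy : x ≠ y := shiftl_joins_ne h.jn
      have hyz : y ≠ z1 := shiftl_joins_ne hj
      refine ⟨e', c', h1, ?_, ?_, ?_⟩
      · intro q hq g
        have hqf : q ≠ c f := fun h5 => hq (f, z1) List.mem_cons_self h5.symm
        have hq' : ∀ r ∈ L, Function.update c e (c f) r.1 ≠ q := by
          intro r hr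
          have hre : r.1 ≠ e := (Finset.mem_erase.mp (shiftl_mem hrest r hr)).1
          rw [Function.update_of_ne hre]
          exact hq r (List.mem_cons_of_mem _ hr)
        exact (h2 q hq' g).trans (hs4 g q hqf)
      · intro q
        rw [h3 q, hs2 q y (Ne.symm hxy) hyz]
      · intro q
        refine le_trans (h4 q) ?_
        rcases shiftl_end hrest with h5 | h5
        · subst h5
          exact hs3 q hxz
        · have hzx : z ≠ x := fun h6 => hxL (h6 ▸ h5)
          have hzz : z ≠ z1 := fun h6 => hz1 (h6 ▸ h5)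
          exact le_of_eq (hs2 q z hzx hzz)

end Pool.Agent.H77.Df
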