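import Pool.Agent.H77.Df.Defs

/-!
# Alternating trails

All statements by induction on the trail (list induction).  The list of a trail has no repeated edge (`cons` requires
`e ∉ L`).  `tr_sum`: an edge `e` joining `u ≠ w` contributes `sgn (f e)` at `u` and at `w`; at the vertex between two
consecutive edges the contributions cancel (telescoping).
-/

set_option autoImplicit false

open Finset
open scoped Classical

namespace Pool.Agent.H77.Df

variable {V E : Type} {G : MG V E}

theorem joins_symm {e : E} {u v : V} (h : G.joins e u v) : G.joins e v u := h.symm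

theorem joins_ne {e : E} {u v : V} (h : G.joins e u v) : u ≠ v := by
  have h1 := G.ne e
  rcases h with ⟨h2, h3⟩ | ⟨h2, h3⟩
  · rw [h2, h3] at h1
    exact h1
  · rw [h2, h3] at h1
    exact h1.symm

theorem joins_inc {e : E} {u v w : V} (h : G.joins e u v) : G.inc e w ↔ w = u ∨ w = v := by
  unfold MG.inc
  rcases h with ⟨h2, h3⟩ | ⟨h2, h3⟩
  · rw [h2, h3, eq_comm, eq_comm (a := v)]
  · rw [h2, h3, eq_comm, eq_comm (a := u), or_comm]

theorem tr_nodup {A : Finset E} {f : E → Bool} {u v : V} {b b' : Bool} {L : List E} (h : G.Tr A f u v b b' L) :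
    L.Nodup := by
  induction h with
  | one e u v he hj => simp
  | cons e u w v b' L he hj heL _ ih => exact List.nodup_cons.2 ⟨heL, ih⟩

theorem tr_sub {A : Finset E} {f : E → Bool} {u v : V} {b b' : Bool} {L : List E} (h : G.Tr A f u v b b' L) :
    ∀ e ∈ L, e ∈ A := by
  induction h with
  | one e u v he hj =>
    intro e' he'
    rw [List.mem_singleton] at he'
    rw [he']
    exact he
  | cons e u w v b' L he hj heL _ ih =>
    intro e' he'
    rcases List.mem_cons.1 he' with rfl | he'
    · exact he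
    · exact ih e' he'

private theorem trail_sgn_not (b : Bool) : sgn (!b) = -sgn b := by
  cases b <;> simp [sgn]

/-- telescoping -/
theorem tr_sum {A : Finset E} {f : E → Bool} {u v : V} {b b' : Bool} {L : List E} (h : G.Tr A f u v b b' L) (x : V) :
    ∑ e ∈ L.toFinset.filter (fun e => G.inc e x), sgn (f e) =
      (if x = u then sgn b else 0) + (if x = v then sgn b' else 0) := by
  induction h with
  | one e u v he hj =>
    have hne := joins_ne hj
    rw [Finset.sum_filter]
    simp only [List.toFinset_cons, List.toFinset_nil, insert_empty_eq, Finset.sum_singleton]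
    rw [joins_inc hj]
    by_cases h1 : x = u
    · have h2 : x ≠ v := fun h3 => hne (h1.symm.trans h3)
      rw [if_pos (Or.inl h1), if_pos h1, if_neg h2, add_zero]
    · by_cases h2 : x = v
      · rw [if_pos (Or.inr h2), if_neg h1, if_pos h2, zero_add]
      · rw [if_neg (fun h3 => h3.elim h1 h2), if_neg h1, if_neg h2, add_zero]
  | cons e u w v b' L he hj heL _ ih =>
    have hne := joins_ne hj
    have h0 : e ∉ L.toFinset := fun h => heL (List.mem_toFinset.1 h)
    rw [Finset.sum_filter] at ih ⊢
    rw [List.toFinset_cons, Finset.sum_insert h0, ih, joins_inc hj, trail_sgn_not]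
    by_cases h1 : x = u
    · have h2 : x ≠ w := fun h3 => hne (h1.symm.trans h3)
      rw [if_pos (Or.inl h1), if_pos h1, if_neg h2, zero_add]
    · by_cases h2 : x = w
      · rw [if_pos (Or.inr h2), if_neg h1, if_pos h2]
        ring
      · rw [if_neg (fun h3 => h3.elim h1 h2), if_neg h1, if_neg h2, zero_add]

/-- effect of exchanging the colours along a trail -/
theorem exc_flip {A : Finset E} {f : E → Bool} {u v : V} {b b' : Bool} {L : List E} (h : G.Tr A f u v b b' L) (x : V) :
    G.exc A (flipL f L) x = G.exc A f x - 2 * ((if x = u then sgn b else 0) + (if x = v then sgn b' else 0)) := by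
  rw [← tr_sum h x]
  unfold MG.exc
  have h1 : L.toFinset.filter (fun e => G.inc e x) =
      (A.filter (fun e => G.inc e x)).filter (fun e => e ∈ L) := by
    ext e
    simp only [Finset.mem_filter, List.mem_toFinset]
    constructor
    · rintro ⟨h1, h2⟩
      exact ⟨⟨tr_sub h e h1, h2⟩, h1⟩
    · rintro ⟨⟨_, h2⟩, h3⟩
      exact ⟨h3, h2⟩
  rw [h1, Finset.sum_filter (fun e => e ∈ L), Finset.mul_sum, ← Finset.sum_sub_distrib]
  refine Finset.sum_congr rfl fun e _ => ?_
  unfold flipL
  by_cases h2 : e ∈ L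
  · rw [if_pos h2, if_pos h2, trail_sgn_not]
    ring
  · rw [if_neg h2, if_neg h2]
    ring

/-- extension at the end -/
theorem tr_append {A : Finset E} {f : E → Bool} {u v w : V} {b b' : Bool} {L : List E} (h : G.Tr A f u v b b' L)
    {e : E} (he : e ∈ A) (hL : e ∉ L) (hj : G.joins e v w) (hf : f e = !b') : G.Tr A f u w b (f e) (L ++ [e]) := by
  induction h with
  | one e0 u v he0 hj0 =>
    refine MG.Tr.cons e0 u v w (f e) [e] he0 hj0 ?_ ?_
    · intro h1
      exact hL (by rw [List.mem_singleton] at h1 ⊢; exact h1.symm)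
    · have h1 := MG.Tr.one (G := G) (A := A) (f := f) e v w he hj
      rw [← hf]
      exact h1
  | cons e0 u p v b' L he0 hj0 heL _ ih =>
    rw [List.mem_cons, not_or] at hL
    refine MG.Tr.cons e0 u p w (f e) (L ++ [e]) he0 hj0 ?_ (ih hL.2 hj hf)
    rw [List.mem_append, List.mem_singleton, not_or]
    exact ⟨heL, fun h1 => hL.1 h1.symm⟩

/-- cutting a trail at one of its edges: the edge is traversed from `p` to `q`; `L = L1 ++ e :: L2`; the first part
(without and with `e`) and the last part (with and without `e`) are trails -/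
theorem tr_split {A : Finset E} {f : E → Bool} {u v : V} {b b' : Bool} {L : List E} (h : G.Tr A f u v b b' L)
    {e : E} (he : e ∈ L) :
    ∃ (p q : V) (L1 L2 : List E), L = L1 ++ e :: L2 ∧ G.joins e p q ∧
      ((L1 = [] ∧ p = u ∧ f e = b) ∨ G.Tr A f u p b (!f e) L1) ∧
      G.Tr A f u q b (f e) (L1 ++ [e]) ∧
      G.Tr A f p v (f e) b' (e :: L2) ∧
      ((L2 = [] ∧ q = v ∧ f e = b') ∨ G.Tr A f q v (!f e) b' L2) := by
  induction h with
  | one e0 u v he0 hj0 =>
    rw [List.mem_singleton] at he
    subst he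
    exact ⟨u, v, [], [], rfl, hj0, Or.inl ⟨rfl, rfl, rfl⟩, MG.Tr.one e u v he0 hj0,
      MG.Tr.one e u v he0 hj0, Or.inl ⟨rfl, rfl, rfl⟩⟩
  | cons e0 u w v b' L he0 hj0 heL hT ih =>
    rcases List.mem_cons.1 he with he1 | he1
    · subst he1
      exact ⟨u, w, [], L, rfl, hj0, Or.inl ⟨rfl, rfl, rfl⟩, MG.Tr.one e u w he0 hj0,
        MG.Tr.cons e u w v b' L he0 hj0 heL hT, Or.inr hT⟩
    · obtain ⟨p, q, L1, L2, hL, hj, h1, h2, h3, h4⟩ := ih he1
      have h0 : e0 ∉ L1 ∧ e0 ≠ e := by
        rw [hL, List.mem_append, List.mem_cons, not_or, not_or] at heL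
        exact ⟨heL.1, heL.2.1⟩
      refine ⟨p, q, e0 :: L1, L2, by rw [hL]; rfl, hj, Or.inr ?_, ?_, h3, h4⟩
      · rcases h1 with ⟨h5, h6, h7⟩ | h5
        · subst h5
          subst h6
          have h8 := MG.Tr.one (G := G) (A := A) (f := f) e0 u p he0 hj0
          rw [h7, Bool.not_not]
          exact h8
        · exact MG.Tr.cons e0 u w p (!f e) L1 he0 hj0 h0.1 h5
      · refine MG.Tr.cons e0 u w q (f e) (L1 ++ [e]) he0 hj0 ?_ h2
        rw [List.mem_append, List.mem_singleton, not_or]
        exact h0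

private theorem trail_len {A : Finset E} {f : E → Bool} {u v : V} {b b' : Bool} {L : List E}
    (h : G.Tr A f u v b b' L) : L.length ≤ A.card := by
  rw [← List.toFinset_card_of_nodup (tr_nodup h)]
  exact Finset.card_le_card fun e he => tr_sub h e (List.mem_toFinset.1 he)

/-- a trail can be started with any edge of colour `b` at `u`, and a longest one exists -/
theorem tr_max {A : Finset E} {f : E → Bool} {u w : V} {e : E} (he : e ∈ A) (hj : G.joins e u w) :
    ∃ (v : V) (b' : Bool) (L : List E), G.Tr A f u v (f e) b' L ∧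
      ∀ (v₂ : V) (b₂ : Bool) (L₂ : List E), G.Tr A f u v₂ (f e) b₂ L₂ → L₂.length ≤ L.length := by
  let S : Set ℕ := {n | ∃ (v : V) (b' : Bool) (L : List E), G.Tr A f u v (f e) b' L ∧ L.length = n}
  have h1 : S.Nonempty := ⟨1, w, f e, [e], MG.Tr.one e u w he hj, rfl⟩
  have h2 : BddAbove S := ⟨A.card, by
    rintro n ⟨v, b', L, hL, rfl⟩
    exact trail_len hL⟩
  obtain ⟨v, b', L, hL, hn⟩ := Nat.sSup_mem h1 h2
  refine ⟨v, b', L, hL, fun v₂ b₂ L₂ h3 => ?_⟩
  rw [hn]
  exact le_csSup h2 ⟨v₂, b₂, L₂, h3, rfl⟩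

/-- at the end of a longest trail there is no unused edge of the opposite colour -/
theorem tr_max_end {A : Finset E} {f : E → Bool} {u v : V} {b b' : Bool} {L : List E} (h : G.Tr A f u v b b' L)
    (hmax : ∀ (v₂ : V) (b₂ : Bool) (L₂ : List E), G.Tr A f u v₂ b b₂ L₂ → L₂.length ≤ L.length) :
    ∀ e ∈ A, G.inc e v → e ∉ L → f e = b' := by
  intro e he hv hL
  by_contra hne
  have hf : f e = !b' := by
    cases hb : f e <;> cases hb' : b' <;> simp_all
  obtain ⟨w, hw⟩ : ∃ w, G.joins e v w := by
    rcases hv with hv | hv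
    · exact ⟨G.t e, Or.inl ⟨hv, rfl⟩⟩
    · exact ⟨G.s e, Or.inr ⟨rfl, hv⟩⟩
  have h1 := hmax w (f e) (L ++ [e]) (tr_append h he hL hw hf)
  rw [List.length_append, List.length_singleton] at h1
  omega

end Pool.Agent.H77.Df
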